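import Mathlib

namespace Pool.Agent.Lib.helper12

/-- an algebra of functions of finitely many jet variables `x i n` (the `n`-th derivative of the
`i`-th field) with commuting derivations `d i n` along them -/
structure Jet (N : ℕ) (A : Type*) [CommRing A] [Algebra ℝ A] where
  x : Fin N → ℕ → A
  d : Fin N → ℕ → Derivation ℝ A A
  d_x : ∀ i n j m, d i n (x j m) = if i = j ∧ n = m then 1 else 0
  comm : ∀ i n j m f, d i n (d j m f) = d j m (d i n f)
  fin : ∀ f, ∃ K, ∀ i n, K ≤ n → d i n f = 0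

namespace Jet

variable {N : ℕ} {A : Type*} [CommRing A] [Algebra ℝ A] (J : Jet N A)

/-- total derivative -/
noncomputable def D (f : A) : A := ∑ᶠ n, ∑ i, J.x i (n + 1) * J.d i n f

/-- derivative along the flow `u_t = K` -/
noncomputable def ev (K : Fin N → A) (f : A) : A := ∑ᶠ n, ∑ i, J.D^[n] (K i) * J.d i n f

/-- variational derivative -/
noncomputable def var (f : A) (i : Fin N) : A := ∑ᶠ n, (-1) ^ n * J.D^[n] (J.d i n f)

def Bd (K : ℕ) (f : A) : Prop := ∀ i n, K ≤ n → J.d i n f = 0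

lemma Bd.mono {J : Jet N A} {K L : ℕ} {f : A} (h : J.Bd K f) (k : K ≤ L) : J.Bd L f :=
  fun i n hn => h i n (k.trans hn)

lemma Bd.der {J : Jet N A} {K : ℕ} {f : A} (h : J.Bd K f) (j m) : J.Bd K (J.d j m f) :=
  fun i n hn => by rw [J.comm, h i n hn, map_zero]

lemma fs {f : A} {K : ℕ} (h : J.Bd K f) (c : Fin N → ℕ → A) :
    ∑ᶠ n, ∑ i, c i n * J.d i n f = ∑ n ∈ Finset.range K, ∑ i, c i n * J.d i n f := by
  refine finsum_eq_sum_of_support_subset _ fun n hn => ?_
  by_contra e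
  exact hn (by simp [h _ n (by simpa using e)])

noncomputable def vf (c : Fin N → ℕ → A) : Derivation ℝ A A :=
  Derivation.mk' ⟨⟨fun f => ∑ᶠ n, ∑ i, c i n * J.d i n f, fun f g => by
    obtain ⟨K, hK⟩ := J.fin f
    obtain ⟨L, hL⟩ := J.fin g
    have a := Bd.mono (J := J) hK (le_max_left K L)
    have b := Bd.mono (J := J) hL (le_max_right K L)
    rw [J.fs a, J.fs b, J.fs (K := max K L) fun i n h => by rw [map_add, a i n h, b i n h, add_zero]]
    simp [mul_add, Finset.sum_add_distrib]⟩, fun r f => by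
    obtain ⟨K, a⟩ := J.fin f
    simp only
    rw [J.fs a, J.fs (K := K) fun i n h => by rw [Derivation.map_smul, a i n h, smul_zero]]
    simp [Finset.smul_sum]⟩ fun f g => by
    obtain ⟨K, hK⟩ := J.fin f
    obtain ⟨L, hL⟩ := J.fin g
    have a := Bd.mono (J := J) hK (le_max_left K L)
    have b := Bd.mono (J := J) hL (le_max_right K L)
    simp only [LinearMap.coe_mk, AddHom.coe_mk]
    rw [J.fs a, J.fs b, J.fs (K := max K L) fun i n h => by
      rw [Derivation.leibniz, a i n h, b i n h, smul_zero, smul_zero, add_zero]]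
    simp [mul_add, Finset.sum_add_distrib, Finset.mul_sum, mul_left_comm]

lemma vf_eq {f : A} {K : ℕ} (h : J.Bd K f) (c : Fin N → ℕ → A) :
    J.vf c f = ∑ n ∈ Finset.range K, ∑ i, c i n * J.d i n f := J.fs h c

lemma bd_x (j : Fin N) (m : ℕ) : J.Bd (m + 1) (J.x j m) := fun i n h => by
  rw [J.d_x, if_neg (by omega)]

@[simp] lemma vf_x (c : Fin N → ℕ → A) (j : Fin N) (m : ℕ) : J.vf c (J.x j m) = c j m := by
  rw [J.vf_eq (J.bd_x j m)]
  simp [J.d_x, ite_and]

lemma add_sub_add_right_eq_sub' {a b c e : A} (h : c = e) : a + c - (b + e) = a - b := by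
  rw [h]; ring

lemma vf_comm (c e : Fin N → ℕ → A) (f : A) : J.vf c (J.vf e f) - J.vf e (J.vf c f) =
    J.vf (fun i n => J.vf c (e i n) - J.vf e (c i n)) f := by
  obtain ⟨K, a⟩ := J.fin f
  have k : ∀ c e : Fin N → ℕ → A, J.vf c (J.vf e f) =
      ∑ n ∈ Finset.range K, ∑ i, J.vf c (e i n) * J.d i n f + ∑ p ∈ Finset.range K ×ˢ Finset.univ,
        ∑ q ∈ Finset.range K ×ˢ Finset.univ, e p.2 p.1 * (c q.2 q.1 * J.d q.2 q.1 (J.d p.2 p.1 f)) := by
    intro c e
    simp only [J.vf_eq a, map_sum, Derivation.leibniz, smul_eq_mul, J.vf_eq (Bd.der a _ _),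
      Finset.sum_add_distrib, Finset.sum_product, Finset.mul_sum, mul_comm (J.d _ _ f), add_comm]
  rw [k, k, J.vf_eq a, Finset.sum_comm (s := Finset.range K ×ˢ Finset.univ),
    add_sub_add_right_eq_sub']
  · simp only [sub_mul, Finset.sum_sub_distrib]
  · exact Finset.sum_congr rfl fun p _ => Finset.sum_congr rfl fun q _ => by
      rw [J.comm, mul_left_comm]

lemma d_eq (j : Fin N) (m : ℕ) (f : A) :
    J.d j m f = J.vf (fun i n => if i = j ∧ n = m then 1 else 0) f := by
  obtain ⟨K, a⟩ := J.fin f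
  rw [J.vf_eq (Bd.mono a (le_max_left K (m + 1)))]
  simp [ite_and]

/-- the total derivative as a derivation -/
noncomputable def T : Derivation ℝ A A := J.vf fun i n => J.x i (n + 1)

lemma D_eq : J.D = J.T := rfl

noncomputable def E (K : Fin N → A) : Derivation ℝ A A := J.vf fun i n => J.T^[n] (K i)

lemma ev_eq (K : Fin N → A) : J.ev K = J.E K := rfl

@[simp] lemma T_x (i n) : J.T (J.x i n) = J.x i (n + 1) := J.vf_x _ _ _

@[simp] lemma E_x (K i n) : J.E K (J.x i n) = J.T^[n] (K i) := J.vf_x _ _ _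

lemma vf_zero (f : A) : J.vf (fun _ _ => 0) f = 0 := by
  obtain ⟨K, a⟩ := J.fin f
  simp [J.vf_eq a]

lemma d_T (j : Fin N) (m : ℕ) (f : A) : J.d j (m + 1) (J.T f) = J.T (J.d j (m + 1) f) + J.d j m f := by
  rw [← sub_eq_iff_eq_add', J.d_eq, J.d_eq, J.d_eq, T, vf_comm]
  congr 2
  ext i n
  split_ifs with h h' <;> simp_all

lemma d_T0 (j : Fin N) (f : A) : J.d j 0 (J.T f) = J.T (J.d j 0 f) := by
  rw [← sub_eq_zero, J.d_eq, J.d_eq, T, vf_comm, ← J.vf_zero f]
  congr 2
  ext i n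
  split_ifs with h <;> simp_all [vf_zero]

lemma E_T (K : Fin N → A) (f : A) : J.E K (J.T f) = J.T (J.E K f) := by
  rw [← sub_eq_zero, E, T, vf_comm, ← J.vf_zero f]
  congr 2
  ext i n
  rw [vf_x, Function.iterate_succ_apply', sub_eq_zero]

lemma E_Tn (K : Fin N → A) (n : ℕ) (f : A) : J.E K (J.T^[n] f) = J.T^[n] (J.E K f) :=
  (Function.Commute.iterate_right (f := J.E K) (J.E_T K) n) f

lemma Tn_sub (n : ℕ) (f g : A) : J.T^[n] (f - g) = J.T^[n] f - J.T^[n] g := iterate_map_sub _ _ _ _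

lemma E_comm (K L : Fin N → A) (f : A) : J.E K (J.E L f) - J.E L (J.E K f) =
    J.E (fun i => J.E K (L i) - J.E L (K i)) f := by
  refine (J.vf_comm _ _ f).trans ?_
  congr 2
  ext i n
  rw [Tn_sub, ← E_Tn, ← E_Tn]
  rfl

/-- equality up to a total derivative -/
def Im (f : A) : Prop := ∃ s, f = J.T s

lemma Im.add {J : Jet N A} {f g : A} : J.Im f → J.Im g → J.Im (f + g)
  | ⟨s, a⟩, ⟨t, b⟩ => ⟨s + t, by rw [a, b, map_add]⟩

lemma Im.neg {J : Jet N A} {f : A} : J.Im f → J.Im (-f)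
  | ⟨s, a⟩ => ⟨-s, by rw [a, map_neg]⟩

lemma Im.of_eq {J : Jet N A} {f g : A} (h : J.Im f) (e : g = f) : J.Im g := e ▸ h

lemma Im.sum {J : Jet N A} {ι : Type*} (s : Finset ι) {f : ι → A} (h : ∀ i, J.Im (f i)) :
    J.Im (∑ i ∈ s, f i) :=
  Finset.sum_induction f J.Im (fun _ _ => Im.add) ⟨0, by simp⟩ fun i _ => h i

lemma Im.E {J : Jet N A} {f : A} (K : Fin N → A) : J.Im f → J.Im (J.E K f)
  | ⟨s, a⟩ => ⟨J.E K s, by rw [a, E_T]⟩

lemma parts (n : ℕ) (f g : A) : J.Im (J.T^[n] f * g - f * ((-1) ^ n * J.T^[n] g)) := by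
  induction n generalizing g with
  | zero => exact ⟨0, by simp⟩
  | succ n ih =>
    refine (Im.add ⟨J.T^[n] f * g, rfl⟩ (ih (J.T g)).neg).of_eq ?_
    rw [Function.iterate_succ_apply' J.T n f, Function.iterate_succ_apply J.T n g]
    simp only [Derivation.leibniz, smul_eq_mul]
    ring

lemma var_eq {f : A} {K : ℕ} (h : J.Bd K f) (i : Fin N) :
    J.var f i = ∑ n ∈ Finset.range K, (-1) ^ n * J.T^[n] (J.d i n f) := by
  refine finsum_eq_sum_of_support_subset _ fun n hn => ?_
  by_contra e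
  exact hn (by simp [D_eq, h _ n (by simpa using e)])

lemma E_var (K : Fin N → A) (f : A) : J.Im (J.E K f - ∑ i, J.var f i * K i) := by
  obtain ⟨M, a⟩ := J.fin f
  refine (Im.sum (Finset.range M) fun n => Im.sum Finset.univ fun i =>
    J.parts n (K i) (J.d i n f)).of_eq ?_
  rw [E, J.vf_eq a]
  simp only [J.var_eq a, Finset.sum_sub_distrib, Finset.sum_mul]
  rw [Finset.sum_comm (s := Finset.univ)]
  simp only [mul_comm]

lemma helm (K L : Fin N → A) (f : A) :
    J.Im (∑ i, J.E K (J.var f i) * L i - ∑ i, J.E L (J.var f i) * K i) := by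
  refine (((J.E_var L f).E K).neg.add (((J.E_var K f).E L).add (J.E_var
    (fun i => J.E K (L i) - J.E L (K i)) f))).of_eq ?_
  rw [← E_comm]
  simp only [map_sub, map_sum, Derivation.leibniz, smul_eq_mul, mul_sub, Finset.sum_add_distrib,
    Finset.sum_sub_distrib, mul_comm]
  ring

/-- the bracket density of a matrix operator -/
noncomputable def br (P : (Fin N → A) → Fin N → A) (f g : A) : A := ∑ i, J.var f i * P (J.var g) i

/-- skew-symmetry and Jacobi identity modulo total derivatives -/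
def Poisson (P : (Fin N → A) → Fin N → A) : Prop :=
  (∀ f g, ∃ s, J.br P f g + J.br P g f = J.D s) ∧
    ∀ f g h, ∃ s, J.br P (J.br P f g) h + J.br P (J.br P g h) f + J.br P (J.br P h f) g = J.D s

lemma poisson_of (P : (Fin N → A) → Fin N → A) (Q : (Fin N → A) → (Fin N → A) → Fin N → A)
    (hs : ∀ a b, J.Im (∑ i, a i * P b i + ∑ i, b i * P a i))
    (hQ : ∀ K b i, J.E K (P b i) = P (fun j => J.E K (b j)) i + Q K b i)
    (hJ : ∀ a b c, J.Im (∑ i, a i * Q (P c) b i + ∑ i, b i * Q (P a) c i + ∑ i, c i * Q (P b) a i)) :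
    J.Poisson P := by
  refine ⟨fun f g => hs _ _, fun f g h => ?_⟩
  have k : ∀ f g h, J.Im (J.br P (J.br P f g) h - (∑ i, J.var f i * Q (P (J.var h)) (J.var g) i +
      ∑ i, J.E (P (J.var h)) (J.var f i) * P (J.var g) i -
      ∑ i, J.E (P (J.var h)) (J.var g i) * P (J.var f) i)) := by
    intro f g h
    refine ((J.E_var (P (J.var h)) (J.br P f g)).neg.add
      (hs (J.var f) fun j => J.E (P (J.var h)) (J.var g j))).of_eq ?_
    simp only [br, map_sum, Derivation.leibniz, smul_eq_mul, hQ, mul_add, Finset.sum_add_distrib,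
      mul_comm (P _ _)]
    ring
  refine ((((k f g h).add (k g h f)).add (k h f g)).add (((hJ (J.var f) (J.var g) (J.var h)).add
    (J.helm (P (J.var h)) (P (J.var g)) f)).add ((J.helm (P (J.var f)) (P (J.var h)) g).add
    (J.helm (P (J.var g)) (P (J.var f)) h)))).of_eq ?_
  ring

end Jet

/-- the polynomial model -/
noncomputable def polyJet (N : ℕ) : Jet N (MvPolynomial (Fin N × ℕ) ℝ) where
  x i n := MvPolynomial.X (i, n)
  d i n := MvPolynomial.pderiv (i, n)
  d_x i n j m := by simp [MvPolynomial.pderiv_X, Pi.single_apply, eq_comm]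
  comm i n j m f := by
    have : ⁅MvPolynomial.pderiv (R := ℝ) (i, n), MvPolynomial.pderiv (R := ℝ) (j, m)⁆ = 0 :=
      MvPolynomial.derivation_ext fun v => by
        simp only [Derivation.commutator_apply, MvPolynomial.pderiv_X, Pi.single_apply]
        split_ifs <;> simp
    exact sub_eq_zero.1 ((Derivation.commutator_apply f).symm.trans (by rw [this]; rfl))
  fin f := by
    obtain ⟨K, hK⟩ := (f.vars.image Prod.snd).bddAbove
    exact ⟨K + 1, fun i n h => MvPolynomial.pderiv_eq_zero_of_notMem_vars fun e => by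
      have := hK (Finset.mem_coe.2 (Finset.mem_image_of_mem _ e))
      simp at this
      omega⟩

end Pool.Agent.Lib.helper12
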