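import Mathlib
import Pool.Agent.Lib.helper12.Jet

namespace Pool.Agent.Lib.helper12.Jet

variable {N : ℕ} {A : Type*} [CommRing A] [Algebra ℝ A] (J : Jet N A)

lemma Bd.T {J : Jet N A} {K : ℕ} {f : A} (h : J.Bd K f) : J.Bd (K + 1) (J.T f) := by
  rintro i (_ | n) hn
  · omega
  · rw [d_T, h i _ (by omega), h i _ (by omega), map_zero, add_zero]

lemma Bd.Tn {J : Jet N A} {K : ℕ} {f : A} (h : J.Bd K f) (n : ℕ) : J.Bd (K + n) (J.T^[n] f) := by
  induction n with
  | zero => exact h
  | succ n ih => rw [Function.iterate_succ_apply']; exact ih.T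

lemma Bd.mul {J : Jet N A} {K : ℕ} {f g : A} (h : J.Bd K f) (k : J.Bd K g) : J.Bd K (f * g) :=
  fun i n hn => by simp [h i n hn, k i n hn]

lemma top {K : ℕ} {f : A} (h : J.Bd (K + 1) f) (j : Fin N) (n : ℕ) :
    J.d j (K + n) (J.T^[n] f) = J.d j K f := by
  induction n with
  | zero => rfl
  | succ n ih =>
    rw [Function.iterate_succ_apply', ← add_assoc, d_T, h.Tn n j _ (by omega), map_zero, zero_add, ih]

lemma bd_of_T {K : ℕ} {s : A} (h : J.Bd (K + 1) (J.T s)) : J.Bd K s := by
  obtain ⟨M, hM⟩ := J.fin s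
  have : ∀ r, J.Bd (max K (M - r)) s := by
    intro r
    induction r with
    | zero => exact fun i n hn => hM i n (by omega)
    | succ r ih =>
      intro i n hn
      by_cases e : max K (M - r) ≤ n
      · exact ih i n e
      have := h i (n + 1) (by omega)
      rwa [d_T, ih i _ (by omega), map_zero, zero_add] at this
  simpa using this M

lemma Im.hess {J : Jet N A} {K : ℕ} {f : A} (h : J.Im f) (b : J.Bd (K + 2) f) (i j : Fin N) :
    J.d i (K + 1) (J.d j (K + 1) f) = 0 := by
  obtain ⟨s, rfl⟩ := h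
  have c := J.bd_of_T b
  rw [d_T, c j _ le_rfl, map_zero, zero_add, (c.der j K) i _ le_rfl]

lemma cancel (r : ℝ) (hr : r ≠ 0) {a : A} (h : r • a = 0) : a = 0 := by
  rw [← one_smul ℝ a, ← inv_mul_cancel₀ hr, mul_smul, h, smul_zero]

lemma fund (a : A) (i : Fin N) (h : ∀ L, J.Im (a * L)) : a = 0 := by
  obtain ⟨K, hK⟩ := J.fin a
  have b := J.bd_x i (K + 1)
  have := (h (J.x i (K + 1) * J.x i (K + 1))).hess ((Bd.mono hK (by omega)).mul (b.mul b)) i i
  refine cancel 2 two_ne_zero ?_
  simp [J.d_x, hK i (K + 1) (by omega)] at this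
  rw [two_smul]
  linear_combination this

lemma d_E (K : Fin N → A) (j : Fin N) (p : ℕ) (f : A) : J.d j p (J.E K f) =
    J.E K (J.d j p f) + J.vf (fun l n => J.d j p (J.T^[n] (K l))) f := by
  rw [← sub_eq_iff_eq_add', J.d_eq, J.d_eq j p f, E, vf_comm]
  congr 2
  ext l n
  rw [← d_eq]
  split_ifs <;> simp

lemma var_bd {f : A} {k : ℕ} (h : J.Bd (k + 1) f) (i : Fin N) : J.Bd (k + k + 1) (J.var f i) := by
  intro j p hp
  rw [J.var_eq h, map_sum]
  refine Finset.sum_eq_zero fun n hn => ?_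
  have := ((h.der i n).Tn n) j p (by have := Finset.mem_range.1 hn; omega)
  rcases neg_one_pow_eq_or A n with e | e <;> simp [e, this]

lemma var_top {f : A} {k : ℕ} (h : J.Bd (k + 1) f) (i j : Fin N) :
    J.d j (k + k) (J.var f i) = (-1) ^ k * J.d j k (J.d i k f) := by
  rw [J.var_eq h, map_sum, Finset.sum_range_succ, Finset.sum_eq_zero, zero_add]
  · have := J.top (h.der i k) j k
    rcases neg_one_pow_eq_or A k with e | e <;> simp [e, this]
  intro n hn
  have := ((h.der i n).Tn n) j (k + k) (by have := Finset.mem_range.1 hn; omega)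
  rcases neg_one_pow_eq_or A n with e | e <;> simp [e, this]

lemma cosym {F : Fin N → A} {f : A} (h : J.Im (J.E F f)) (L : Fin N → A) :
    J.Im (∑ i, J.E F (J.var f i) * L i + ∑ i, J.var f i * J.E L (F i)) := by
  refine ((h.E L).add (((J.E_var L f).E F).neg.add (J.E_var
    (fun i => J.E L (F i) - J.E F (L i)) f).neg)).of_eq ?_
  rw [← E_comm]
  simp only [map_sub, map_sum, Derivation.leibniz, smul_eq_mul, mul_sub, Finset.sum_add_distrib,
    Finset.sum_sub_distrib, mul_comm]
  ring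

end Pool.Agent.Lib.helper12.Jet
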