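import Mathlib

namespace Pool.Agent.Lib.helper12

open Finset

/-- real harmonic sum -/
noncomputable def H (n : ℕ) : ℝ := ∑ i ∈ Finset.Icc 1 n, (1 : ℝ) / i

lemma H_eq (n : ℕ) : H n = (harmonic n : ℝ) := by
  rw [harmonic_eq_sum_Icc]
  simp [H]

lemma H_le (n : ℕ) : H n ≤ 1 + Real.log n := by
  rw [H_eq]; exact harmonic_le_one_add_log n

lemma le_H (n : ℕ) : Real.log (n + 1) ≤ H n := by
  rw [H_eq]
  have := log_add_one_le_harmonic n
  simpa using this

lemma H_nonneg (n : ℕ) : 0 ≤ H n := by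
  unfold H; positivity

lemma sum_Ioc_eq (a b : ℕ) (h : a ≤ b) :
    ∑ i ∈ Finset.Ioc a b, (1 : ℝ) / i = H b - H a := by
  unfold H
  have h1 : Finset.Icc 1 b = Finset.Ioc 0 b := rfl
  have h2 : Finset.Icc 1 a = Finset.Ioc 0 a := rfl
  rw [h1, h2, ← Finset.sum_Ioc_consecutive _ (Nat.zero_le a) h]
  ring

/-- Chebyshev: a set of primes in `[2^j, 2^(j+1))` has at most `4 * 2^j / j` elements. -/
lemma card_primes_dyadic (P : Finset ℕ) (j : ℕ) (hP : ∀ p ∈ P, p.Prime ∧ Nat.log 2 p = j) :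
    P.card * j ≤ 4 * 2 ^ j := by
  have h1 : (2 ^ j) ^ P.card ≤ ∏ p ∈ P, p := by
    apply Finset.pow_card_le_prod
    intro p hp
    obtain ⟨hp1, hp2⟩ := hP p hp
    rw [← hp2]
    exact Nat.pow_log_le_self 2 hp1.ne_zero
  have h2 : ∏ p ∈ P, p ≤ primorial (2 ^ (j + 1)) := by
    unfold primorial
    apply Finset.prod_le_prod_of_subset_of_one_le'
    · intro p hp
      obtain ⟨hp1, hp2⟩ := hP p hp
      simp only [Finset.mem_filter, Finset.mem_range]
      refine ⟨?_, hp1⟩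
      have := Nat.lt_pow_succ_log_self (b := 2) (by norm_num) p
      rw [hp2] at this
      omega
    · intro p hp _
      simp only [Finset.mem_filter] at hp
      exact hp.2.one_le
  have h3 := primorial_le_four_pow (2 ^ (j + 1))
  have h4 : (2 : ℕ) ^ (j * P.card) ≤ 2 ^ (4 * 2 ^ j) := by
    calc (2 : ℕ) ^ (j * P.card) = (2 ^ j) ^ P.card := by rw [pow_mul]
      _ ≤ 4 ^ (2 ^ (j + 1)) := le_trans h1 (le_trans h2 h3)
      _ = 2 ^ (4 * 2 ^ j) := by
        rw [show (4 : ℕ) = 2 ^ 2 by norm_num, ← pow_mul]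
        congr 1
        ring
  have := (Nat.pow_le_pow_iff_right (by norm_num : 1 < 2)).1 h4
  linarith [mul_comm j P.card]

/-- The sum over primes of `1 / (p * sqrt (log2 p))` is bounded. -/
lemma exists_prime_sum_bound : ∃ C : ℝ, 0 ≤ C ∧ ∀ P : Finset ℕ, (∀ p ∈ P, p.Prime) →
    ∑ p ∈ P, (1 : ℝ) / (p * Real.sqrt (Nat.log 2 p)) ≤ C := by
  have hs : Summable (fun j : ℕ => 4 * (1 / (j : ℝ) ^ (3 / 2 : ℝ))) :=
    (Real.summable_one_div_nat_rpow.2 (by norm_num)).mul_left 4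
  refine ⟨∑' j : ℕ, 4 * (1 / (j : ℝ) ^ (3 / 2 : ℝ)), tsum_nonneg (fun j => by positivity), ?_⟩
  intro P hP
  rw [← Finset.sum_fiberwise_of_maps_to (t := P.image (Nat.log 2)) (g := Nat.log 2)
    (fun x hx => Finset.mem_image_of_mem _ hx)]
  refine le_trans ?_ (hs.sum_le_tsum (P.image (Nat.log 2)) (fun j _ => by positivity))
  apply Finset.sum_le_sum
  intro j hj
  obtain ⟨p0, hp0, rfl⟩ := Finset.mem_image.1 hj
  set j := Nat.log 2 p0 with hjdef
  have hj1 : 1 ≤ j := by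
    rw [hjdef]
    exact Nat.le_log_of_pow_le (by norm_num) (by simpa using (hP p0 hp0).two_le)
  have hjpos : (0 : ℝ) < j := by exact_mod_cast hj1
  have hc := card_primes_dyadic (P.filter (fun p => Nat.log 2 p = j)) j (by
    intro p hp
    simp only [Finset.mem_filter] at hp
    exact ⟨hP p hp.1, hp.2⟩)
  have hc' : ((P.filter (fun p => Nat.log 2 p = j)).card : ℝ) * j ≤ 4 * 2 ^ j := by
    exact_mod_cast hc
  have hsq : 0 < Real.sqrt j := Real.sqrt_pos.2 hjpos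
  calc ∑ p ∈ P with Nat.log 2 p = j, (1 : ℝ) / (p * Real.sqrt (Nat.log 2 p))
      ≤ ∑ p ∈ P with Nat.log 2 p = j, (1 : ℝ) / (2 ^ j * Real.sqrt j) := by
        apply Finset.sum_le_sum
        intro p hp
        simp only [Finset.mem_filter] at hp
        rw [hp.2]
        have : (2 : ℝ) ^ j ≤ p := by
          have := Nat.pow_log_le_self 2 (hP p hp.1).ne_zero
          rw [hp.2] at this
          exact_mod_cast this
        gcongr
    _ = ((P.filter (fun p => Nat.log 2 p = j)).card : ℝ) * (1 / (2 ^ j * Real.sqrt j)) := by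
        rw [Finset.sum_const, nsmul_eq_mul]
    _ ≤ 4 * (1 / (j : ℝ) ^ (3 / 2 : ℝ)) := by
        have e : (j : ℝ) ^ (3 / 2 : ℝ) = j * Real.sqrt j := by
          rw [show (3 / 2 : ℝ) = 1 + 1 / 2 by norm_num, Real.rpow_add hjpos, Real.rpow_one,
            Real.sqrt_eq_rpow]
        rw [e, mul_one_div, mul_one_div, div_le_div_iff₀ (by positivity) (by positivity)]
        nlinarith

/-- logarithmic upper-bound sieve: `K`-rough numbers up to `M`. -/
lemma rough_sum_mul_le (R : Finset ℕ) (M K : ℕ)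
    (hR : ∀ m ∈ R, 1 ≤ m ∧ m ≤ M ∧ ∀ p : ℕ, p.Prime → p ∣ m → K < p) :
    (∑ m ∈ R, (1 : ℝ) / m) * H K ≤ H (M * K) := by
  unfold H
  rw [Finset.sum_mul_sum, ← Finset.sum_product']
  have key : ∀ m ∈ R, ∀ k ∈ Finset.Icc 1 K, Nat.Coprime m k := by
    intro m hm k hk
    apply Nat.coprime_of_dvd
    intro p hp hpm hpk
    have h1 := (hR m hm).2.2 p hp hpm
    simp only [Finset.mem_Icc] at hk
    have h2 := Nat.le_of_dvd (by omega) hpk
    omega
  have hinj : Set.InjOn (fun x : ℕ × ℕ => x.1 * x.2) (R ×ˢ Finset.Icc 1 K : Finset (ℕ × ℕ)) := by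
    rintro ⟨m1, k1⟩ h1 ⟨m2, k2⟩ h2 h
    simp only [Finset.coe_product, Set.mem_prod, Finset.mem_coe] at h1 h2
    simp only at h
    have d1 : m1 ∣ m2 := (key m1 h1.1 k2 h2.2).dvd_of_dvd_mul_right ⟨k1, h.symm⟩
    have d2 : m2 ∣ m1 := (key m2 h2.1 k1 h1.2).dvd_of_dvd_mul_right ⟨k2, h⟩
    have e : m1 = m2 := Nat.dvd_antisymm d1 d2
    subst e
    have : 0 < m1 := (hR m1 h1.1).1
    have : k1 = k2 := Nat.eq_of_mul_eq_mul_left this h
    simp [this]
  calc ∑ x ∈ R ×ˢ Finset.Icc 1 K, (1 : ℝ) / x.1 * (1 / x.2)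
      = ∑ x ∈ R ×ˢ Finset.Icc 1 K, (1 : ℝ) / ((x.1 * x.2 : ℕ) : ℝ) := by
        apply Finset.sum_congr rfl
        intro x _
        push_cast
        rw [one_div_mul_one_div]
    _ = ∑ y ∈ (R ×ˢ Finset.Icc 1 K).image (fun x : ℕ × ℕ => x.1 * x.2), (1 : ℝ) / y := by
        rw [Finset.sum_image hinj]
    _ ≤ ∑ i ∈ Finset.Icc 1 (M * K), (1 : ℝ) / i := by
        apply Finset.sum_le_sum_of_subset_of_nonneg
        · intro y hy
          obtain ⟨⟨m, k⟩, hx, rfl⟩ := Finset.mem_image.1 hy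
          simp only [Finset.mem_product, Finset.mem_Icc] at hx ⊢
          obtain ⟨h1, h2, _⟩ := hR m hx.1
          exact ⟨Nat.mul_pos h1 hx.2.1, Nat.mul_le_mul h2 hx.2.2⟩
        · intro i _ _
          positivity

end Pool.Agent.Lib.helper12
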