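import Mathlib
import Pool.Agent.Lib.helper12.Primes

namespace Pool.Agent.Lib.helper12

open Finset

/-- tails of an infinite continued fraction, by compactness -/
lemma exists_tails (a : ℕ → ℕ) (ha : ∀ n, 1 ≤ a n) :
    ∃ y : ℕ → ℝ, (∀ n, 0 < y n ∧ y n < 1) ∧ ∀ n, y n * (a n + y (n + 1)) = 1 := by
  have hne : ∀ n : ℕ, ∀ a : ℕ → ℕ, (∀ n, 1 ≤ a n) → ∃ y : ℕ → ℝ, (∀ i, y i ∈ Set.Icc (0 : ℝ) 1) ∧
      ∀ i < n, y i * (a i + y (i + 1)) = 1 := by
    intro n
    induction n with
    | zero => intro a _; exact ⟨fun _ => 0, fun _ => by simp, fun i hi => by omega⟩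
    | succ n ih =>
      intro a ha
      obtain ⟨y, hy1, hy2⟩ := ih (fun i => a (i + 1)) (fun i => ha _)
      have h0 : (1 : ℝ) ≤ a 0 := by exact_mod_cast ha 0
      have h1 := (hy1 0).1
      refine ⟨fun i => Nat.casesOn i (1 / (a 0 + y 0)) y, ?_, ?_⟩
      · intro i
        cases i with
        | zero =>
          refine ⟨show 0 ≤ 1 / ((a 0 : ℝ) + y 0) by positivity, ?_⟩
          show 1 / ((a 0 : ℝ) + y 0) ≤ 1
          rw [div_le_one (by linarith)]
          linarith
        | succ i => exact hy1 i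
      · intro i hi
        cases i with
        | zero =>
          show 1 / ((a 0 : ℝ) + y 0) * (a 0 + y 0) = 1
          field_simp
        | succ i => exact hy2 i (by omega)
  let t : ℕ → Set (ℕ → ℝ) := fun n => {y | (∀ i, y i ∈ Set.Icc (0 : ℝ) 1) ∧
      ∀ i < n, y i * (a i + y (i + 1)) = 1}
  have hcl : ∀ n, IsClosed (t n) := by
    intro n
    have : t n = (⋂ i, {y : ℕ → ℝ | y i ∈ Set.Icc (0 : ℝ) 1}) ∩
        ⋂ i, ⋂ (_ : i < n), {y : ℕ → ℝ | y i * (a i + y (i + 1)) = 1} := by
      ext y; simp [t]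
    rw [this]
    apply IsClosed.inter
    · exact isClosed_iInter fun i => isClosed_Icc.preimage (continuous_apply i)
    · exact isClosed_iInter fun i => isClosed_iInter fun _ => isClosed_eq (by fun_prop) (by fun_prop)
  have hcp : IsCompact (t 0) := by
    have : t 0 = Set.pi Set.univ (fun _ : ℕ => Set.Icc (0 : ℝ) 1) := by
      ext y; simp [t, Set.mem_pi, -Set.pi_univ_Icc]
    rw [this]
    exact isCompact_univ_pi (fun _ => isCompact_Icc)
  obtain ⟨y, hy⟩ := IsCompact.nonempty_iInter_of_sequence_nonempty_isCompact_isClosed t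
    (fun n y hy => ⟨hy.1, fun i hi => hy.2 i (by omega)⟩) (fun n => hne n a ha) hcp hcl
  simp only [Set.mem_iInter] at hy
  have h1 : ∀ n, y n * (a n + y (n + 1)) = 1 := fun n => (hy (n + 1)).2 n (by omega)
  have h2 : ∀ n, 0 < y n := by
    intro n
    rcases ((hy 0).1 n).1.lt_or_eq with h | h
    · exact h
    · have := h1 n
      rw [← h] at this
      simp at this
  refine ⟨y, fun n => ⟨h2 n, ?_⟩, h1⟩
  have h3 : (1 : ℝ) ≤ a n := by exact_mod_cast ha n
  have := h1 n
  have h4 := h2 n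
  have h5 := h2 (n + 1)
  nlinarith

lemma exists_cover (A : Finset ℕ) (hA : A.Nonempty) (p : ℕ → ℝ) :
    ∃ c : ℕ → ℝ, ∀ u : ℝ, 0 ≤ u → u ≤ ∑ a ∈ A, p a → ∃ a ∈ A, c a ≤ u ∧ u ≤ c a + p a := by
  classical
  induction hA using Finset.Nonempty.cons_induction with
  | singleton a =>
    exact ⟨fun _ => 0, fun u h0 h1 => ⟨a, by simp, h0, by simpa using h1⟩⟩
  | cons a s ha hs ih =>
    obtain ⟨c, hc⟩ := ih
    refine ⟨Function.update c a (∑ b ∈ s, p b), fun u h0 h1 => ?_⟩
    rw [Finset.sum_cons] at h1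
    by_cases h : u ≤ ∑ b ∈ s, p b
    · obtain ⟨b, hb, h2, h3⟩ := hc u h0 h
      have : b ≠ a := fun e => ha (e ▸ hb)
      exact ⟨b, by simp [hb], by simpa [Function.update_of_ne this] using h2,
        by simpa [Function.update_of_ne this] using h3⟩
    · push Not at h
      exact ⟨a, by simp, by simpa using h.le, by simp; linarith⟩

theorem dim_gt (A : Finset ℕ) (hA1 : ∀ a ∈ A, 1 ≤ a)
    (gap : ∀ a ∈ A, ∀ b ∈ A, a ≠ b → a + 2 ≤ b ∨ b + 2 ≤ a)
    (hsum : 1 < ∑ a ∈ A, (1 : ℝ) / (a + 1)) (E : Set ℝ) (F : ℝ → ℝ)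
    (hF : ∀ y y' : ℝ, 0 < y → y < 1 → 0 < y' → y' < 1 → |y - y'| ≤ |F y - F y'|)
    (hE : ∀ a : ℕ → ℕ, (∀ n, a n ∈ A) → ∀ y : ℕ → ℝ, (∀ n, 0 < y n ∧ y n < 1) →
      (∀ n, y n * (a n + y (n + 1)) = 1) → F (y 0) ∈ E) :
    (1 / 2 : ENNReal) < dimH E := by
  classical
  have hAne : A.Nonempty := by
    rcases A.eq_empty_or_nonempty with h | h
    · rw [h] at hsum; simp at hsum; linarith
    · exact h
  -- the exponent
  obtain ⟨r, hr1, hr2⟩ : ∃ r : ℝ, 1 / 2 < r ∧ 1 < ∑ a ∈ A, (((a : ℝ) + 1) ^ 2) ^ (-r) := by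
    have hc : Continuous (fun r : ℝ => ∑ a ∈ A, (((a : ℝ) + 1) ^ 2) ^ (-r)) := by
      apply continuous_finsetSum
      intro a _
      exact (Real.continuous_const_rpow (by positivity)).comp continuous_neg
    have h0 : 1 < (fun r : ℝ => ∑ a ∈ A, (((a : ℝ) + 1) ^ 2) ^ (-r)) (1 / 2) := by
      refine lt_of_lt_of_eq hsum (Finset.sum_congr rfl fun a _ => ?_)
      rw [Real.rpow_neg (by positivity), ← Real.sqrt_eq_rpow, Real.sqrt_sq (by positivity), one_div]
    have h1 := (hc.continuousAt (x := 1 / 2)).eventually (lt_mem_nhds h0)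
    have h2 : ∀ᶠ r in nhdsWithin (1 / 2 : ℝ) (Set.Ioi (1 / 2)),
        1 < ∑ a ∈ A, (((a : ℝ) + 1) ^ 2) ^ (-r) := h1.filter_mono nhdsWithin_le_nhds
    obtain ⟨r, h3, h4⟩ := (h2.and self_mem_nhdsWithin).exists
    exact ⟨r, h4, h3⟩
  have hr0 : 0 < r := by linarith
  set p : ℕ → ℝ := fun a => (((a : ℝ) + 1) ^ 2) ^ (-r) with hpdef
  have hp0 : ∀ a, 0 < p a := fun a => by simp only [hpdef]; positivity
  have hphalf : ∀ a ∈ A, p a ≤ 1 / 2 := by
    intro a ha
    have h1 : (1 : ℝ) ≤ a := by exact_mod_cast hA1 a ha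
    have h2 : (4 : ℝ) ≤ ((a : ℝ) + 1) ^ 2 := by nlinarith
    calc p a ≤ (((a : ℝ) + 1) ^ 2) ^ (-(1 / 2) : ℝ) :=
          Real.rpow_le_rpow_of_exponent_le (by linarith) (by linarith)
      _ ≤ (4 : ℝ) ^ (-(1 / 2) : ℝ) := Real.rpow_le_rpow_of_nonpos (by norm_num) h2 (by norm_num)
      _ = 1 / 2 := by
          rw [Real.rpow_neg (by norm_num), ← Real.sqrt_eq_rpow,
            show (4 : ℝ) = 2 ^ 2 by norm_num, Real.sqrt_sq (by norm_num)]
          norm_num
  obtain ⟨c, hc⟩ := exists_cover A hAne p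
  have hstep : ∀ u : Set.Icc (0 : ℝ) 1, ∃ a ∈ A, ∃ v : Set.Icc (0 : ℝ) 1,
      (u : ℝ) = c a + p a * v := by
    rintro ⟨u, hu0, hu1⟩
    obtain ⟨a, ha, h1, h2⟩ := hc u hu0 (by linarith)
    have := hp0 a
    refine ⟨a, ha, ⟨(u - c a) / p a, div_nonneg (by linarith) this.le, ?_⟩, ?_⟩
    · rw [div_le_one this]; linarith
    · simp only; field_simp; ring
  choose lt hlt nx hnx using hstep
  let us : Set.Icc (0 : ℝ) 1 → ℕ → Set.Icc (0 : ℝ) 1 := fun u n => nx^[n] u
  let as : Set.Icc (0 : ℝ) 1 → ℕ → ℕ := fun u n => lt (us u n)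
  have hus : ∀ u n, (us u n : ℝ) = c (as u n) + p (as u n) * us u (n + 1) := by
    intro u n
    have := hnx (us u n)
    simp only [us, as, Function.iterate_succ_apply'] at this ⊢
    exact this
  have has : ∀ u n, as u n ∈ A := fun u n => hlt _
  have hy := fun u => exists_tails (as u) (fun n => hA1 _ (has u n))
  choose y hy1 hy2 using hy
  set N : ℕ := A.sup id with hN
  have hle : ∀ a ∈ A, (a : ℝ) ≤ N := by
    intro a ha
    have : a ≤ N := Finset.le_sup (f := id) ha
    exact_mod_cast this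
  set C : ℝ := (((N : ℝ) + 1) ^ 2) ^ r with hC
  have hC0 : 0 < C := by positivity
  have hD1 : ∀ u v n, |(us u n : ℝ) - us v n| ≤ 1 := by
    intro u v n
    have h1 := (us u n).2
    have h2 := (us v n).2
    rw [abs_le]; constructor <;> linarith [h1.1, h1.2, h2.1, h2.2]
  have hDstep : ∀ u v n, as u n = as v n →
      |(us u n : ℝ) - us v n| = p (as u n) * |(us u (n + 1) : ℝ) - us v (n + 1)| := by
    intro u v n h
    rw [hus u n, hus v n, ← h, ← abs_of_pos (hp0 (as u n)), ← abs_mul, abs_of_pos (hp0 (as u n))]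
    congr 1; ring
  have hylow : ∀ u n, 1 ≤ y u n * (as u n + 1) := by
    intro u n
    have h1 := hy2 u n
    have h2 := hy1 u n
    have h3 := hy1 u (n + 1)
    nlinarith
  have hydiff : ∀ u v n, y u n - y v n =
      y u n * y v n * (((as v n : ℝ) + y v (n + 1)) - (as u n + y u (n + 1))) := by
    intro u v n
    have h1 := hy2 u n
    have h2 := hy2 v n
    linear_combination (y v n) * h1 - (y u n) * h2
  have hbase : ∀ u v n, as u n ≠ as v n → |(us u n : ℝ) - us v n| ≤ C * |y u n - y v n| ^ r := by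
    intro u v n h
    refine le_trans (hD1 u v n) ?_
    rw [hC, ← Real.mul_rpow (by positivity) (abs_nonneg _)]
    apply Real.one_le_rpow _ hr0.le
    have h1 := hy1 u n
    have h2 := hy1 v n
    have h3 := hy1 u (n + 1)
    have h4 := hy1 v (n + 1)
    have h5 : 1 ≤ |((as v n : ℝ) + y v (n + 1)) - (as u n + y u (n + 1))| := by
      rcases gap _ (has u n) _ (has v n) h with h6 | h6
      · have : (as u n : ℝ) + 2 ≤ as v n := by exact_mod_cast h6
        rw [le_abs]; left; linarith
      · have : (as v n : ℝ) + 2 ≤ as u n := by exact_mod_cast h6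
        rw [le_abs]; right; linarith
    have h6 : 1 ≤ y u n * (N + 1) := le_trans (hylow u n) (by
      have := hle _ (has u n); gcongr; exact h1.1.le)
    have h7 : 1 ≤ y v n * (N + 1) := le_trans (hylow v n) (by
      have := hle _ (has v n); gcongr; exact h2.1.le)
    rw [hydiff, abs_mul, abs_of_pos (mul_pos h1.1 h2.1)]
    have h8 : 1 ≤ (y u n * (N + 1)) * (y v n * (N + 1)) := one_le_mul_of_one_le_of_one_le h6 h7
    calc (1 : ℝ) ≤ (y u n * (N + 1)) * (y v n * (N + 1)) * 1 := by linarith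
      _ ≤ (y u n * (N + 1)) * (y v n * (N + 1)) *
          |((as v n : ℝ) + y v (n + 1)) - (as u n + y u (n + 1))| := by gcongr
      _ = _ := by ring
  have hind : ∀ u v m n, as u (n + m) ≠ as v (n + m) →
      |(us u n : ℝ) - us v n| ≤ C * |y u n - y v n| ^ r := by
    intro u v m
    induction m with
    | zero => intro n h; exact hbase u v n h
    | succ m ih =>
      intro n h
      by_cases he : as u n = as v n
      · have h1 := ih (n + 1) (by rwa [show n + 1 + m = n + (m + 1) by ring])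
        rw [hDstep u v n he]
        have h2 : |y u (n + 1) - y v (n + 1)| ≤ ((as u n : ℝ) + 1) ^ 2 * |y u n - y v n| := by
          have h3 := hylow u n
          have h4 := hylow v n
          rw [← he] at h4
          rw [hydiff u v n, ← he, abs_mul, abs_of_pos (mul_pos (hy1 u n).1 (hy1 v n).1),
            show ((as u n : ℝ) + y v (n + 1)) - (as u n + y u (n + 1)) =
              -(y u (n + 1) - y v (n + 1)) by ring, abs_neg]
          have h8 := one_le_mul_of_one_le_of_one_le h3 h4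
          calc |y u (n + 1) - y v (n + 1)| = 1 * |y u (n + 1) - y v (n + 1)| := by ring
            _ ≤ (y u n * (as u n + 1) * (y v n * (as u n + 1))) * |y u (n + 1) - y v (n + 1)| := by
              gcongr
            _ = _ := by ring
        have h3 : |y u (n + 1) - y v (n + 1)| ^ r ≤
            (((as u n : ℝ) + 1) ^ 2) ^ r * |y u n - y v n| ^ r := by
          rw [← Real.mul_rpow (by positivity) (abs_nonneg _)]
          exact Real.rpow_le_rpow (abs_nonneg _) h2 hr0.le
        have h4 : p (as u n) * (((as u n : ℝ) + 1) ^ 2) ^ r = 1 := by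
          simp only [hpdef]
          rw [← Real.rpow_add (by positivity)]
          simp
        have h5 := hp0 (as u n)
        calc p (as u n) * |(us u (n + 1) : ℝ) - us v (n + 1)|
            ≤ p (as u n) * (C * ((((as u n : ℝ) + 1) ^ 2) ^ r * |y u n - y v n| ^ r)) := by
              gcongr
              exact le_trans h1 (by gcongr)
          _ = (p (as u n) * (((as u n : ℝ) + 1) ^ 2) ^ r) * (C * |y u n - y v n| ^ r) := by ring
          _ = _ := by rw [h4, one_mul]
      · exact hbase u v n he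
  have hmain : ∀ u v : Set.Icc (0 : ℝ) 1, |(u : ℝ) - v| ≤ C * |F (y u 0) - F (y v 0)| ^ r := by
    intro u v
    by_cases h : ∃ m, as u m ≠ as v m
    · obtain ⟨m, hm⟩ := h
      have h1 := hind u v m 0 (by simpa using hm)
      refine le_trans h1 ?_
      have := hF _ _ (hy1 u 0).1 (hy1 u 0).2 (hy1 v 0).1 (hy1 v 0).2
      gcongr
    · push Not at h
      have h1 : ∀ n, |(u : ℝ) - v| ≤ (1 / 2) ^ n * |(us u n : ℝ) - us v n| := by
        intro n
        induction n with
        | zero => simp [us]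
        | succ n ih =>
          rw [hDstep u v n (h n)] at ih
          have := hphalf _ (has u n)
          refine le_trans ih ?_
          rw [pow_succ, mul_assoc]
          gcongr
      have h2 : |(u : ℝ) - v| ≤ 0 := by
        have h3 : Filter.Tendsto (fun n : ℕ => (1 / 2 : ℝ) ^ n) Filter.atTop (nhds 0) :=
          tendsto_pow_atTop_nhds_zero_of_lt_one (by norm_num) (by norm_num)
        apply ge_of_tendsto' h3
        intro n
        refine le_trans (h1 n) ?_
        have := hD1 u v n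
        have h4 : (0 : ℝ) ≤ (1 / 2) ^ n := by positivity
        nlinarith
      exact le_trans h2 (by positivity)
  let Φ : Set.Icc (0 : ℝ) 1 → ℝ := fun u => F (y u 0)
  have hinj : Function.Injective Φ := by
    intro u v h
    have h1 := hmain u v
    simp only [Φ] at h
    rw [h, sub_self, abs_zero, Real.zero_rpow hr0.ne', mul_zero] at h1
    exact Subtype.ext (sub_eq_zero.1 (abs_nonpos_iff.1 h1))
  have : Nonempty (Set.Icc (0 : ℝ) 1) := ⟨⟨0, by simp⟩⟩
  let f : ℝ → ℝ := fun x => ((Function.invFun Φ x : Set.Icc (0 : ℝ) 1) : ℝ)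
  have hf : ∀ u, f (Φ u) = u := fun u => by
    simp only [f]; rw [Function.leftInverse_invFun hinj u]
  obtain ⟨r', hr'⟩ : ∃ r' : NNReal, (r' : ℝ) = r := ⟨⟨r, hr0.le⟩, rfl⟩
  have hH : HolderOnWith ⟨C, hC0.le⟩ r' f (Set.range Φ) := by
    rintro _ ⟨u, rfl⟩ _ ⟨v, rfl⟩
    rw [hf, hf, edist_dist, edist_dist, Real.dist_eq, Real.dist_eq, hr']
    have h1 := ENNReal.ofReal_le_ofReal (hmain u v)
    rw [ENNReal.ofReal_mul hC0.le, ← ENNReal.ofReal_rpow_of_nonneg (abs_nonneg _) hr0.le] at h1
    refine le_trans h1 (le_of_eq ?_)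
    congr 1
    exact ENNReal.ofReal_eq_coe_nnreal hC0.le
  have hrpos : (0 : NNReal) < r' := by
    rw [← NNReal.coe_lt_coe, hr']; exact hr0
  have h1 := hH.dimH_image_le hrpos
  have h2 : f '' (Set.range Φ) = Set.Icc 0 1 := by
    ext x
    constructor
    · rintro ⟨_, ⟨u, rfl⟩, rfl⟩
      rw [hf]; exact u.2
    · intro hx
      exact ⟨Φ ⟨x, hx⟩, ⟨_, rfl⟩, hf _⟩
  have h3 : dimH (Set.Icc (0 : ℝ) 1) = 1 := by
    rw [Real.dimH_of_nonempty_interior (by rw [interior_Icc]; exact ⟨1 / 2, by norm_num⟩)]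
    simp
  rw [h2, h3] at h1
  have h4 : dimH (Set.range Φ) ≤ dimH E := dimH_mono (by
    rintro _ ⟨u, rfl⟩
    exact hE (as u) (has u) (y u) (hy1 u) (hy2 u))
  rw [ENNReal.le_div_iff_mul_le (Or.inl (by exact_mod_cast hrpos.ne')) (Or.inl ENNReal.coe_ne_top),
    one_mul] at h1
  refine lt_of_lt_of_le ?_ (le_trans h1 h4)
  have h5 : ((1 / 2 : NNReal) : ENNReal) < (r' : ENNReal) := by
    rw [ENNReal.coe_lt_coe, ← NNReal.coe_lt_coe, hr']
    simpa using hr1
  simpa using h5

/-- an alphabet in the progression `r + 8 k` with large reciprocal sum -/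
lemma exists_alphabet (r : ℕ) (hr : r ≤ 7) : ∃ K : ℕ, 2 ≤ K ∧
    1 < ∑ a ∈ (Finset.range K).image (fun k => r + 8 * k), (1 : ℝ) / (a + 1) := by
  have hlog : Filter.Tendsto (fun M : ℕ => Real.log M) Filter.atTop Filter.atTop :=
    Real.tendsto_log_atTop.comp tendsto_natCast_atTop_atTop
  obtain ⟨K, hK1, hK2⟩ := ((hlog.eventually (Filter.eventually_gt_atTop 8)).and
    (Filter.eventually_ge_atTop 2)).exists
  refine ⟨K, hK2, ?_⟩
  rw [Finset.sum_image (by intro a _ b _ h; simp only at h; omega)]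
  have h1 := le_H K
  have h2 : Real.log K ≤ Real.log (K + 1) := Real.log_le_log (by
    have : 0 < K := by omega
    exact_mod_cast this) (by linarith)
  have h3 : H K = ∑ k ∈ Finset.range K, (1 : ℝ) / (k + 1) := by
    rw [H_eq, harmonic]; push_cast; simp
  have h4 : ∑ k ∈ Finset.range K, (1 / 8 : ℝ) * ((1 : ℝ) / (k + 1)) ≤
      ∑ k ∈ Finset.range K, (1 : ℝ) / (((r + 8 * k : ℕ) : ℝ) + 1) := by
    apply Finset.sum_le_sum
    intro k _
    rw [one_div_mul_one_div]
    apply one_div_le_one_div_of_le (by positivity)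
    have : (r : ℝ) ≤ 7 := by exact_mod_cast hr
    push_cast
    linarith
  rw [← Finset.mul_sum, ← h3] at h4
  linarith

/-- in a finite monoid, two letters simulate every letter of the progression -/
lemma simulate {R : Type} [Monoid R] [Finite R] (g : ℕ → R) (r M : ℕ) (v : R)
    (hv : v * g r = 1) (hv' : g r * v = 1) (hstep : ∀ x, g (x + M) = g x * v * g (r + M)) (t : ℕ) :
    ∃ l : List ℕ, Odd l.length ∧ (∀ a ∈ l, a = r ∨ a = r + M) ∧ (l.map g).prod = g (r + M * t) := by
  let u : Rˣ := ⟨g r, v, hv', hv⟩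
  obtain ⟨n, hn, hun⟩ := (isOfFinOrder_of_finite u).exists_pow_eq_one
  have h1 : g r ^ (2 * n) = 1 := by
    have := congrArg (fun x : Rˣ => (x : R)) hun
    simp only [Units.val_pow_eq_pow_val, Units.val_one] at this
    have h0 : g r ^ n = 1 := this
    rw [mul_comm, pow_mul, h0, one_pow]
  have h2 : g r ^ (2 * n - 1) = v := by
    have : g r ^ (2 * n) = g r ^ (2 * n - 1) * g r := by
      rw [← pow_succ]; congr 1; omega
    calc g r ^ (2 * n - 1) = g r ^ (2 * n - 1) * (g r * v) := by rw [hv', mul_one]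
      _ = v := by rw [← mul_assoc, ← this, h1, one_mul]
  induction t with
  | zero => exact ⟨[r], by simp, by simp, by simp⟩
  | succ t ih =>
    obtain ⟨l, hl1, hl2, hl3⟩ := ih
    refine ⟨l ++ List.replicate (2 * n - 1) r ++ [r + M], ?_, ?_, ?_⟩
    · simp only [List.length_append, List.length_replicate, List.length_singleton]
      obtain ⟨k, hk⟩ := hl1
      exact ⟨k + n, by omega⟩
    · intro a ha
      simp only [List.mem_append, List.mem_replicate, List.mem_singleton] at ha
      rcases ha with (h | h) | h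
      · exact hl2 a h
      · exact Or.inl h.2
      · exact Or.inr h
    · simp only [List.map_append, List.prod_append, List.map_replicate, List.prod_replicate, hl3, h2,
        List.map_singleton, List.prod_singleton]
      rw [← hstep]; congr 1; ring

end Pool.Agent.Lib.helper12
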