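import Mathlib

namespace Pool.Agent.Lib.helper12.Gen

open MvPolynomial

def sm (n : ℕ) (f : ℕ → ℕ) : ℕ := Nat.rec 0 (fun k acc => acc + f k) n

lemma sm_eq (n : ℕ) (f : ℕ → ℕ) : sm n f = ∑ k : Fin n, f k := by
  rw [Fin.sum_univ_eq_sum_range]
  induction n with
  | zero => rfl
  | succ n ih => rw [Finset.sum_range_succ, ← ih]; rfl

def al (n : ℕ) (f : ℕ → Bool) : Bool := Nat.rec true (fun k acc => acc && f k) n

lemma al_spec {n : ℕ} {f : ℕ → Bool} (h : al n f = true) : ∀ k < n, f k = true := by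
  induction n with
  | zero => intro k hk; omega
  | succ n ih =>
    have h' : (al n f && f n) = true := h
    rw [Bool.and_eq_true] at h'
    intro k hk
    rcases Nat.lt_succ_iff_lt_or_eq.1 hk with a | rfl
    · exact ih h'.1 k a
    · exact h'.2

def dg (T b i : ℕ) : ℕ := (T >>> (b * i)) % 2 ^ b

def chkA (m n A : ℕ) (N : ℕ → ℕ → ℕ) : Bool :=
  al m fun i => al n fun k => N i k % 251 == dg A 8 (n * i + k)

def chkB (m n A B : ℕ) : Bool :=
  al m fun i => al m fun j =>
    sm n (fun k => dg A 8 (n * i + k) * dg B 8 (n * j + k)) % 251 == cond (i == j) 1 0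

/-- a matrix of polynomials that has a right inverse mod 251 at one point is onto at a
general point in characteristic zero -/
theorem gen {σ : Type*} (K : Type*) [Field K] [CharZero K] (m n A B : ℕ)
    (N : ℕ → ℕ → MvPolynomial σ ℕ) (p0 : σ → ℕ) (N0 : ℕ → ℕ → ℕ)
    (h0 : ∀ i k, eval p0 (N i k) = N0 i k) (hA : chkA m n A N0 = true) (hB : chkB m n A B = true) :
    ∃ G : MvPolynomial σ K, G ≠ 0 ∧ ∀ p : σ → K, eval p G ≠ 0 → ∀ t : Fin m → K,
      ∃ c : Fin n → K, ∀ i : Fin m, ∑ k : Fin n, eval₂ (Nat.castRingHom K) p (N i k) * c k = t i := by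
  let Mz : Matrix (Fin m) (Fin m) (MvPolynomial σ ℤ) := fun i j =>
    ∑ k : Fin n, map (Nat.castRingHom ℤ) (N i k) * (dg B 8 (n * j + k) : ℕ)
  have nz : Mz.det ≠ 0 := by
    intro h
    haveI : Fact (Nat.Prime 251) := ⟨by norm_num⟩
    have e := (eval₂Hom (Int.castRingHom (ZMod 251)) fun s => (p0 s : ZMod 251)).map_det Mz
    have : (eval₂Hom (Int.castRingHom (ZMod 251)) fun s => (p0 s : ZMod 251)).mapMatrix Mz = 1 := by
      ext i j
      have a : ∀ k : Fin n, eval₂ (Int.castRingHom (ZMod 251)) (fun s => (p0 s : ZMod 251))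
          (map (Nat.castRingHom ℤ) (N i k)) = (dg A 8 (n * i + k) : ℕ) := by
        intro k
        rw [eval₂_map, ← beq_iff_eq.1 (al_spec (al_spec hA i i.2) k k.2), ← h0, ZMod.natCast_mod,
          ← coe_eval₂Hom]
        have := eval₂_comp (Nat.castRingHom (ZMod 251)) p0 (N i k)
        simp only [eq_natCast] at this
        rw [this, coe_eval₂Hom]
        congr 1
      have b := beq_iff_eq.1 (al_spec (al_spec hB i i.2) j j.2)
      have b' := congrArg (Nat.cast : ℕ → ZMod 251) b
      rw [ZMod.natCast_mod, sm_eq] at b'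
      change (eval₂Hom (Int.castRingHom (ZMod 251)) fun s => (p0 s : ZMod 251)) (Mz i j) = _
      simp only [Mz, map_sum, map_mul, map_natCast]
      simp only [coe_eval₂Hom, a]
      push_cast at b'
      rw [b', Matrix.one_apply]
      by_cases k : i = j
      · simp [k]
      · have : (i.val == j.val) = false := by simpa [Fin.val_inj] using k
        simp [k, this]
    rw [this, h] at e
    simp at e
  refine ⟨map (Int.castRingHom K) Mz.det, fun h => nz (map_injective _ Int.cast_injective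
    (by rw [h, map_zero])), fun p hp t => ?_⟩
  rw [eval_map, ← coe_eval₂Hom, RingHom.map_det] at hp
  obtain ⟨x, hx⟩ := Matrix.mulVec_surjective_iff_isUnit.2
    ((Matrix.isUnit_iff_isUnit_det _).2 (Ne.isUnit hp)) t
  refine ⟨fun k => ∑ j : Fin m, (dg B 8 (n * j + k) : ℕ) * x j, fun i => ?_⟩
  rw [← congrFun hx i]
  change _ = ∑ j, eval₂Hom (Int.castRingHom K) p (Mz i j) * x j
  simp only [Mz, map_sum, map_mul, map_natCast]
  simp only [coe_eval₂Hom, eval₂_map, Finset.mul_sum, Finset.sum_mul]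
  rw [Finset.sum_comm]
  refine Finset.sum_congr rfl fun j _ => Finset.sum_congr rfl fun k _ => ?_
  rw [mul_assoc]
  congr 2
  exact Subsingleton.elim _ _

end Pool.Agent.Lib.helper12.Gen
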