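import Mathlib

namespace Pool.Agent.Lib.helper12.Grig

/-- The four generators. -/
inductive Gen
  | a | b | c | d
  deriving DecidableEq

/-- The action on vertices of the binary tree (false is 0, true is 1). -/
def act : Gen → List Bool → List Bool
  | _, [] => []
  | .a, false :: w => true :: w
  | .a, true :: w => false :: w
  | .b, false :: w => false :: act .a w
  | .b, true :: w => true :: act .c w
  | .c, false :: w => false :: act .a w
  | .c, true :: w => true :: act .d w
  | .d, false :: w => false :: w
  | .d, true :: w => true :: act .b w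

theorem act_act (s : Gen) (w : List Bool) : act s (act s w) = w := by
  induction w generalizing s with
  | nil => cases s <;> rfl
  | cons x w ih => cases s <;> cases x <;> simp [act, ih]

/-- A generator as a permutation of the vertices. -/
def gen (s : Gen) : Equiv.Perm (List Bool) := ⟨act s, act s, act_act s, act_act s⟩

/-- The first Grigorchuk group. -/
def Grig : Subgroup (Equiv.Perm (List Bool)) := Subgroup.closure (Set.range gen)

open Gen

lemma klein (w : List Bool) : (act b (act c w) = act d w ∧ act c (act b w) = act d w) ∧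
    (act c (act d w) = act b w ∧ act d (act c w) = act b w) ∧
    (act d (act b w) = act c w ∧ act b (act d w) = act c w) := by
  induction w with
  | nil => simp [act]
  | cons x w ih => cases x <;> simp [act, act_act, ih]

def wd (u : List Gen) : Equiv.Perm (List Bool) := (u.map gen).prod

lemma wd_cons (s : Gen) (u : List Gen) : wd (s :: u) = gen s * wd u := by simp [wd]
lemma wd_append (u v : List Gen) : wd (u ++ v) = wd u * wd v := by simp [wd]

lemma exists_wd {g : Equiv.Perm (List Bool)} (hg : g ∈ Grig) : ∃ u, wd u = g := by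
  induction hg using Subgroup.closure_induction_left with
  | one => exact ⟨[], rfl⟩
  | mul_left x hx y _ hy =>
    obtain ⟨s, rfl⟩ := hx
    obtain ⟨u, rfl⟩ := hy
    exact ⟨s :: u, wd_cons _ _⟩
  | inv_mul_cancel x hx y _ hy =>
    obtain ⟨s, rfl⟩ := hx
    obtain ⟨u, rfl⟩ := hy
    exact ⟨s :: u, wd_cons _ _⟩

def par : List Gen → Bool
  | [] => false
  | s :: u => xor (s = a) (par u)

def secl : Gen → Bool → List Gen
  | .a, _ => []
  | .b, false => [a]
  | .b, true => [c]
  | .c, false => [a]
  | .c, true => [d]
  | .d, false => []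
  | .d, true => [b]

def sec : List Gen → Bool → List Gen
  | [], _ => []
  | s :: u, x => secl s (xor x (par u)) ++ sec u x

lemma wd_sec (u : List Gen) (x : Bool) (w : List Bool) :
    wd u (x :: w) = xor x (par u) :: wd (sec u x) w := by
  induction u with
  | nil => simp [wd, par, sec]
  | cons s u ih =>
    rw [wd_cons, Equiv.Perm.mul_apply, ih, sec, wd_append, Equiv.Perm.mul_apply, par]
    generalize wd (sec u x) w = v
    cases s <;> cases x <;> cases par u <;> rfl

lemma wd_nil' (u : List Gen) : wd u [] = [] := by
  induction u with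
  | nil => rfl
  | cons s u ih => rw [wd_cons, Equiv.Perm.mul_apply, ih]; cases s <;> rfl

lemma par_append (u v : List Gen) : par (u ++ v) = xor (par u) (par v) := by
  induction u with
  | nil => simp [par]
  | cons s u ih => simp [par, ih]

lemma sec_append (u v : List Gen) (x : Bool) :
    sec (u ++ v) x = sec u (xor x (par v)) ++ sec v x := by
  induction u with
  | nil => simp [sec]
  | cons s u ih => simp [sec, ih, par_append, Bool.xor_comm (par u)]

def om : Gen → ℕ
  | .a => 3
  | .b => 4
  | .c => 3
  | .d => 2

def W (u : List Gen) : ℕ := (u.map om).sum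

lemma W_append (u v : List Gen) : W (u ++ v) = W u + W v := by simp [W]

lemma W_sec (u : List Gen) : W (sec u false) + W (sec u true) + 5 * u.count a =
    W u + 2 * u.length := by
  induction u with
  | nil => rfl
  | cons s u ih =>
    simp only [sec, W_append]
    cases s <;> cases par u <;> simp [W, secl, om] at ih ⊢ <;> omega

def Alt (u : List Gen) : Prop := u.IsChain (fun s t => ¬ (s = a ↔ t = a))

lemma red {u : List Gen} (h : ¬ Alt u) : ∃ v, wd v = wd u ∧ W v < W u := by
  simp only [Alt, List.isChain_iff_forall_rel_of_append_cons_cons, not_forall, not_not] at h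
  obtain ⟨s, t, p, q, rfl, h⟩ := h
  have : ∃ r, wd r = gen s * gen t ∧ W r < om s + om t := by
    cases s <;> cases t <;> first
      | (simp at h; done)
      | exact ⟨[], Equiv.ext (fun w => (act_act _ w).symm), by decide⟩
      | exact ⟨[d], Equiv.ext (fun w => (klein w).1.1.symm), by decide⟩
      | exact ⟨[d], Equiv.ext (fun w => (klein w).1.2.symm), by decide⟩
      | exact ⟨[b], Equiv.ext (fun w => (klein w).2.1.1.symm), by decide⟩
      | exact ⟨[b], Equiv.ext (fun w => (klein w).2.1.2.symm), by decide⟩
      | exact ⟨[c], Equiv.ext (fun w => (klein w).2.2.1.symm), by decide⟩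
      | exact ⟨[c], Equiv.ext (fun w => (klein w).2.2.2.symm), by decide⟩
  obtain ⟨r, h1, h2⟩ := this
  refine ⟨p ++ (r ++ q), by simp only [wd_append, wd_cons, h1, mul_assoc], ?_⟩
  simp only [W, List.map_append, List.sum_append, List.map_cons, List.sum_cons] at h2 ⊢
  omega

lemma alt_count : ∀ {u : List Gen}, Alt u → u.length ≤ 2 * u.count a + 1 ∧
    (u.head? = some a → u.length ≤ 2 * u.count a)
  | [], _ => by simp
  | [s], _ => by cases s <;> simp
  | s :: t :: u, h => by
    obtain ⟨h1, h2⟩ := List.isChain_cons_cons.1 h
    have := alt_count h2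
    cases s <;> cases t <;> simp at h1 this ⊢ <;> omega

lemma fin_of_sec {v : List Gen} (h : par v = false) (h2 : ∀ x, IsOfFinOrder (wd (sec v x))) :
    IsOfFinOrder (wd v) := by
  have e : ∀ n x w, (wd v ^ n) (x :: w) = x :: (wd (sec v x) ^ n) w := by
    intro n x w
    induction n with
    | zero => rfl
    | succ n ih => simp only [pow_succ', Equiv.Perm.mul_apply, ih, wd_sec, h, Bool.xor_false]
  refine isOfFinOrder_iff_pow_eq_one.2 ⟨orderOf (wd (sec v false)) * orderOf (wd (sec v true)),
    Nat.mul_pos (h2 _).orderOf_pos (h2 _).orderOf_pos, Equiv.ext (fun w => ?_)⟩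
  rcases w with _ | ⟨_ | _, w⟩
  · exact Equiv.Perm.pow_apply_eq_self_of_apply_eq_self (wd_nil' v) _
  · rw [e, pow_mul, pow_orderOf_eq_one, one_pow]; rfl
  · rw [e, pow_mul', pow_orderOf_eq_one, one_pow]; rfl

lemma fin_wd (n : ℕ) : ∀ u, W u = n → IsOfFinOrder (wd u) := by
  induction n using Nat.strong_induction_on with
  | _ n ih =>
  have ih' : ∀ v, W v < n → IsOfFinOrder (wd v) := fun v hv => ih _ hv v rfl
  have h1 : ∀ u, W u = n → (Alt u → u.head? = some a) → IsOfFinOrder (wd u) := by
    intro u hu h
    by_cases ha : Alt u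
    · have h2 := (alt_count ha).2 (h ha)
      have h3 := W_sec u
      have h4 : 0 < u.count a := List.count_pos_iff.2 (List.mem_of_mem_head? (h ha))
      cases hp : par u
      · exact fin_of_sec hp (fun x => ih' _ (by cases x <;> omega))
      · refine IsOfFinOrder.of_pow (n := 2) ?_ two_ne_zero
        rw [pow_two, ← wd_append]
        refine fin_of_sec (by simp [par_append]) (fun x => ih' _ ?_)
        rw [sec_append, W_append, hp]
        cases x <;> simp <;> omega
    · obtain ⟨v, e, hv⟩ := red ha
      exact e ▸ ih' v (hu ▸ hv)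
  intro u hu
  by_cases ha : Alt u → u.head? = some a
  · exact h1 u hu ha
  rw [Classical.not_imp] at ha
  rcases u with _ | ⟨s, _ | ⟨t, u⟩⟩
  · exact IsOfFinOrder.one
  · refine isOfFinOrder_iff_pow_eq_one.2 ⟨2, by norm_num, Equiv.ext (fun w => act_act s w)⟩
  · have h2 := h1 (t :: u ++ [s]) (by rw [← hu]; simp [W]; omega) (fun _ => by
      have := (List.isChain_cons_cons.1 ha.1).1
      have h3 := ha.2
      cases s <;> cases t <;> simp_all)
    have : IsConj (wd (t :: u ++ [s])) (wd (s :: t :: u)) :=
      isConj_iff.2 ⟨gen s, by simp [wd, mul_assoc]⟩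
    exact this.isOfFinOrder h2

theorem torsion : Monoid.IsTorsion Grig := by
  rintro ⟨g, hg⟩
  obtain ⟨u, rfl⟩ := exists_wd hg
  exact (Subgroup.subtype_injective Grig).isOfFinOrder_iff.1 (fin_wd _ u rfl)

end Pool.Agent.Lib.helper12.Grig
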