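import Mathlib

namespace Pool.Agent.Lib.helper12.Idem

open Matrix Module

variable (K : Type) [Field K] [CharZero K] {n m m' : ℕ}

noncomputable def fK (n : ℕ) : Matrix (Fin n) (Fin n) ℚ →+* Module.End K (Fin n → K) :=
  (Matrix.toLinAlgEquiv' (R := K) (n := Fin n)).toRingEquiv.toRingHom.comp
    (algebraMap ℚ K).mapMatrix

theorem fK_apply (M : Matrix (Fin n) (Fin n) ℚ) (v : Fin n → K) (i : Fin n) :
    fK K n M v i = ∑ j, (M i j : K) * v j := by
  simp [fK, Matrix.toLinAlgEquiv'_apply, Matrix.mulVec, dotProduct]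

theorem fK_smul (q : ℚ) (M : Matrix (Fin n) (Fin n) ℚ) : fK K n (q • M) = (q : K) • fK K n M := by
  refine LinearMap.ext fun v => funext fun i => ?_
  simp [fK_apply, Finset.mul_sum, mul_assoc]

theorem fK_ne {M : Matrix (Fin n) (Fin n) ℚ} (h : fK K n M = 0) : M = 0 := by
  ext i j
  have := fK_apply K M (Pi.single j 1) i
  rw [h] at this
  simp [Pi.single_apply] at this
  exact_mod_cast this.symm

theorem fK_trace (M : Matrix (Fin n) (Fin n) ℚ) :
    LinearMap.trace K _ (fK K n M) = (M.trace : K) := by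
  have : fK K n M = Matrix.toLin' (M.map (algebraMap ℚ K)) := rfl
  rw [this, Matrix.trace_toLin'_eq]
  simp [Matrix.trace]

def ok (A : Matrix (Fin n) (Fin n) ℚ) (θ : Fin m → ℚ) (E : Fin m → Matrix (Fin n) (Fin n) ℚ) :
    Prop :=
  (∀ i j, θ i = θ j → i = j) ∧ ∑ i, E i = 1 ∧ (∀ i, A * E i = θ i • E i) ∧
    (∀ i, E i * A = θ i • E i) ∧ ∀ i, E i ≠ 0

variable {A A' : Matrix (Fin n) (Fin n) ℚ} {θ : Fin m → ℚ} {θ' : Fin m' → ℚ}
  {E : Fin m → Matrix (Fin n) (Fin n) ℚ} {E' : Fin m' → Matrix (Fin n) (Fin n) ℚ}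

theorem inj (h : ok A θ E) : Function.Injective fun i => (θ i : K) :=
  fun i j e => h.1 i j (Rat.cast_injective (α := K) e)

theorem dec (h : ok A θ E) (v : Fin n → K) : ∑ i, fK K n (E i) v = v := by
  rw [← LinearMap.sum_apply, ← map_sum, h.2.1, map_one]; rfl

theorem proj_mem (h : ok A θ E) (i : Fin m) (v : Fin n → K) :
    fK K n (E i) v ∈ (fK K n A).eigenspace (θ i : K) := by
  rw [Module.End.mem_eigenspace_iff, ← Module.End.mul_apply, ← map_mul, h.2.2.1, fK_smul]; rfl

theorem proj_zero (h : ok A θ E) {i j : Fin m} (hij : i ≠ j) {v : Fin n → K}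
    (hv : v ∈ (fK K n A).eigenspace (θ j : K)) : fK K n (E i) v = 0 := by
  rw [Module.End.mem_eigenspace_iff] at hv
  have e : fK K n (E i) (fK K n A v) = (θ i : K) • fK K n (E i) v := by
    rw [← Module.End.mul_apply, ← map_mul, h.2.2.2.1, fK_smul]; rfl
  rw [hv, map_smul, ← sub_eq_zero, ← sub_smul] at e
  refine (smul_eq_zero.1 e).resolve_left fun h0 => hij ?_
  exact (inj K h (sub_eq_zero.1 h0)).symm

theorem mem_sup (h : ok A θ E) (p : Fin m → Prop) (v : Fin n → K) :
    v ∈ (⨆ j, ⨆ (_ : p j), (fK K n A).eigenspace (θ j : K)) ↔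
      ∀ j, ¬ p j → fK K n (E j) v = 0 := by
  constructor
  · intro hv j hj
    have : (⨆ j, ⨆ (_ : p j), (fK K n A).eigenspace (θ j : K)) ≤ LinearMap.ker (fK K n (E j)) :=
      iSup_le fun k => iSup_le fun hk w hw =>
        proj_zero K h (fun e => hj (by rw [e]; exact hk)) hw
    exact this hv
  · intro hv
    rw [← dec K h v]
    refine Submodule.sum_mem _ fun j _ => ?_
    by_cases hj : p j
    · exact Submodule.mem_iSup_of_mem j (Submodule.mem_iSup_of_mem hj (proj_mem K h j v))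
    · rw [hv j hj]; exact Submodule.zero_mem _

theorem sup_top (h : ok A θ E) : (⨆ j, (fK K n A).eigenspace (θ j : K)) = ⊤ := by
  rw [eq_top_iff]
  intro v _
  rw [← dec K h v]
  exact Submodule.sum_mem _ fun j _ => Submodule.mem_iSup_of_mem j (proj_mem K h j v)

theorem ne_bot (h : ok A θ E) (i : Fin m) : (fK K n A).eigenspace (θ i : K) ≠ ⊥ := fun e =>
  h.2.2.2.2 i (fK_ne K (LinearMap.ext fun v => by
    have := proj_mem K h i v
    rw [e] at this
    simpa using this))

theorem single_eq (i : Fin m) : (fK K n A).eigenspace (θ i : K) =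
    ⨆ j, ⨆ (_ : j = i), (fK K n A).eigenspace (θ j : K) := by
  simp

theorem map_le (h : ok A θ E) (h' : ok A' θ' E') (p : Fin m → Prop) (p' : Fin m' → Prop)
    (S : Matrix (Fin n) (Fin n) ℚ) (hS : ∀ i j, p i → ¬ p' j → E' j * S * E i = 0) :
    (⨆ j, ⨆ (_ : p j), (fK K n A).eigenspace (θ j : K)).map (fK K n S) ≤
      ⨆ j, ⨆ (_ : p' j), (fK K n A').eigenspace (θ' j : K) := by
  rintro _ ⟨v, hv, rfl⟩
  rw [mem_sup K h']
  intro j hj
  have hv' := (mem_sup K h p v).1 hv
  rw [← dec K h v, map_sum, map_sum]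
  refine Finset.sum_eq_zero fun i _ => ?_
  by_cases hi : p i
  · rw [← Module.End.mul_apply, ← Module.End.mul_apply, ← map_mul, ← map_mul, hS i j hi hj,
      map_zero]; rfl
  · rw [hv' i hi, map_zero, map_zero]

theorem map_eq (h : ok A θ E) (h' : ok A' θ' E') (p : Fin m → Prop) (p' : Fin m' → Prop)
    (S T : Matrix (Fin n) (Fin n) ℚ) (hST : S * T = 1)
    (hS : ∀ i j, p i → ¬ p' j → E' j * S * E i = 0)
    (hT : ∀ j i, p' j → ¬ p i → E i * T * E' j = 0) :
    (⨆ j, ⨆ (_ : p j), (fK K n A).eigenspace (θ j : K)).map (fK K n S) =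
      ⨆ j, ⨆ (_ : p' j), (fK K n A').eigenspace (θ' j : K) := by
  refine le_antisymm (map_le K h h' p p' S hS) fun w hw => ?_
  refine ⟨fK K n T w, map_le K h' h p' p T hT ⟨w, hw, rfl⟩, ?_⟩
  rw [← Module.End.mul_apply, ← map_mul, hST, map_one]; rfl

theorem rank (h : ok A θ E) (i : Fin m) (r : ℕ) (hr : (E i).trace = r) :
    finrank K ((fK K n A).eigenspace (θ i : K)) = r := by
  have hp : LinearMap.IsProj ((fK K n A).eigenspace (θ i : K)) (fK K n (E i)) :=
    ⟨proj_mem K h i, fun v hv => by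
      conv_rhs => rw [← dec K h v]
      rw [Finset.sum_eq_single i]
      · intro j _ hj; exact proj_zero K h hj hv
      · simp⟩
  have := hp.trace
  rw [fK_trace, hr] at this
  exact_mod_cast this.symm

def wd (A B : Matrix (Fin n) (Fin n) ℚ) : List Bool → Matrix (Fin n) (Fin n) ℚ
  | [] => 1
  | b :: l => (if b then A else B) * wd A B l

def lin (A B : Matrix (Fin n) (Fin n) ℚ) : List (ℚ × List Bool) → Matrix (Fin n) (Fin n) ℚ
  | [] => 0
  | t :: L => t.1 • wd A B t.2 + lin A B L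

theorem irred (A B : Matrix (Fin n) (Fin n) ℚ) (p q : Fin n → List (ℚ × List Bool))
    (e : List (ℚ × List Bool)) (P Q : Fin n → Matrix (Fin n) (Fin n) ℚ)
    (hP : ∀ i, P i = lin A B (p i) * lin A B e) (hQ : ∀ i, Q i = lin A B e * lin A B (q i))
    (h : ∀ i j, Matrix.single i j 1 = P i * Q j) (W : Submodule K (Fin n → K))
    (hA : W.map (fK K n A) ≤ W) (hB : W.map (fK K n B) ≤ W) : W = ⊥ ∨ W = ⊤ := by
  have mul : ∀ M N, (∀ v ∈ W, fK K n M v ∈ W) → (∀ v ∈ W, fK K n N v ∈ W) →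
      ∀ v ∈ W, fK K n (M * N) v ∈ W := fun M N a b v hv => by
    rw [map_mul]; exact a _ (b v hv)
  have w : ∀ l, ∀ v ∈ W, fK K n (wd A B l) v ∈ W := fun l => by
    induction l with
    | nil => intro v hv; rw [wd, map_one]; exact hv
    | cons b l ih =>
      refine mul _ _ ?_ ih
      cases b
      · exact fun v hv => hB ⟨v, hv, rfl⟩
      · exact fun v hv => hA ⟨v, hv, rfl⟩
  have l : ∀ L, ∀ v ∈ W, fK K n (lin A B L) v ∈ W := fun L => by
    induction L with
    | nil => intro v hv; rw [lin, map_zero]; exact W.zero_mem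
    | cons t L ih =>
      intro v hv
      rw [lin, map_add, fK_smul]
      exact W.add_mem (W.smul_mem _ (w _ v hv)) (ih v hv)
  have u : ∀ i j, ∀ v ∈ W, fK K n (Matrix.single i j 1) v ∈ W := fun i j => by
    rw [h, hP, hQ]
    exact mul _ _ (mul _ _ (l _) (l _)) (mul _ _ (l _) (l _))
  by_cases h0 : W = ⊥
  · exact Or.inl h0
  right
  obtain ⟨v, hv, hv0⟩ := Submodule.exists_mem_ne_zero_of_ne_bot h0
  obtain ⟨j, hj⟩ := Function.ne_iff.1 hv0
  have hj' : v j ≠ 0 := hj
  rw [eq_top_iff]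
  intro x _
  have : x = ∑ i, (x i / v j) • fK K n (Matrix.single i j 1) v := by
    funext k
    rw [Finset.sum_apply, Finset.sum_eq_single k]
    · simp only [Pi.smul_apply, fK_apply, smul_eq_mul]
      rw [Finset.sum_eq_single j]
      · simp [hj']
      · intro c _ hc; simp [Matrix.single_apply, Ne.symm hc]
      · simp
    · intro c _ hc
      simp [fK_apply, Matrix.single_apply, hc]
    · simp
  rw [this]
  exact W.sum_mem fun i _ => W.smul_mem _ (u i j v hv)

end Pool.Agent.Lib.helper12.Idem
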