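import Mathlib

namespace Pool.Agent.Lib.helper12.QSim
open scoped InnerProductSpace

variable {H : Type*} [NormedAddCommGroup H] [InnerProductSpace ℂ H] [CompleteSpace H]

lemma star_mul_self_of_norm (U : H →L[ℂ] H) (h : ∀ x, ‖U x‖ = ‖x‖) : star U * U = 1 := by
  have := (ContinuousLinearMap.norm_map_iff_adjoint_comp_self U).1 h
  rw [ContinuousLinearMap.star_eq_adjoint]; exact this

lemma polar (T T' F : H →L[ℂ] H) (hT : T ∈ unitary (H →L[ℂ] H)) (hT' : T' ∈ unitary (H →L[ℂ] H))
    (hF : Function.Injective F) (h : F * T = T' * F) :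
    ∃ U : H →L[ℂ] H, star U * U = 1 ∧ U * T = T' * U := by
  set R := CFC.sqrt (star F * F) with hR
  have hR0 : 0 ≤ R := CFC.sqrt_nonneg _
  have hRR : R * R = star F * F := CFC.sqrt_mul_sqrt_self _ (star_mul_self_nonneg F)
  have hRs : star R = R := (IsSelfAdjoint.of_nonneg hR0).star_eq
  have h1 : star T * (star F * F) * T = star F * F := by
    have : star T * (star F * F) * T = star (F * T) * (F * T) := by
      rw [star_mul]; noncomm_ring
    rw [this, h, star_mul, mul_assoc, ← mul_assoc (star T'), (Unitary.mem_iff.1 hT').1, one_mul]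
  have h2 : R = star T * R * T := by
    refine CFC.sqrt_unique ?_ (star_left_conjugate_nonneg hR0 T)
    have : star T * R * T * (star T * R * T) = star T * (R * (T * star T) * R) * T := by
      noncomm_ring
    rw [this, (Unitary.mem_iff.1 hT).2, mul_one, hRR, h1]
  have h3 : T * R = R * T := by
    conv_lhs => rw [h2]
    rw [← mul_assoc, ← mul_assoc, (Unitary.mem_iff.1 hT).2, one_mul]
  have hn : ∀ x, ‖F x‖ = ‖R x‖ := by
    intro x
    have e1 := ContinuousLinearMap.apply_norm_sq_eq_inner_adjoint_left F x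
    have e2 := ContinuousLinearMap.apply_norm_sq_eq_inner_adjoint_left R x
    rw [← ContinuousLinearMap.star_eq_adjoint] at e1 e2
    have e3 : (star R) ∘L R = (star F) ∘L F := by rw [hRs]; exact hRR
    rw [e3, ← e1] at e2
    exact ((sq_eq_sq₀ (norm_nonneg _) (norm_nonneg _)).1 e2).symm
  have hd : DenseRange R.toLinearMap := by
    have : R.rangeᗮ = ⊥ := by
      rw [ContinuousLinearMap.orthogonal_range, ← ContinuousLinearMap.star_eq_adjoint, hRs,
        LinearMap.ker_eq_bot']
      intro m hm
      apply hF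
      rw [map_zero, ← norm_eq_zero, hn]
      simpa using hm
    have h5 := Submodule.topologicalClosure_eq_top_iff.2 this
    have h6 := Submodule.dense_iff_topologicalClosure_eq_top.2 h5
    exact h6
  let U : H →L[ℂ] H := F.toLinearMap.extendOfNorm R.toLinearMap
  have hU : ∀ x, U (R x) = F x := fun x =>
    LinearMap.extendOfNorm_eq hd ⟨1, fun y => by simp [hn]⟩ x
  refine ⟨U, star_mul_self_of_norm U fun x => ?_, ?_⟩
  · refine hd.induction_on x (isClosed_eq (by fun_prop) (by fun_prop)) (fun y => ?_)
    show ‖U (R y)‖ = ‖R y‖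
    rw [hU, hn]
  · ext x
    refine hd.induction_on x (isClosed_eq (by fun_prop) (by fun_prop)) (fun y => ?_)
    show U (T (R y)) = T' (U (R y))
    have e1 : T (R y) = R (T y) := congrArg (fun A : H →L[ℂ] H => A y) h3
    have e2 : F (T y) = T' (F y) := congrArg (fun A : H →L[ℂ] H => A y) h
    rw [e1, hU, hU, e2]

lemma exP (T S Q : H →L[ℂ] H) (hT : T ∈ unitary (H →L[ℂ] H)) (hS : star S * S = 1)
    (hQ : star Q = Q) (hQQ : Q * Q = Q) (hQS : Q * S = 0) (hTS : T * S = S * T)
    (hTQ : T * Q = Q * T) :
    ∃ P : H →L[ℂ] H, star P = P ∧ P * P = P ∧ T * P = P * T ∧ P = Q + S * P * star S := by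
  let M : Submodule ℂ H :=
    (Submodule.span ℂ {v | ∃ (n : ℕ) (x : H), v = (S ^ n) (Q x)}).topologicalClosure
  have hgen : ∀ (n : ℕ) (x : H), (S ^ n) (Q x) ∈ M := fun n x =>
    Submodule.le_topologicalClosure _ (Submodule.subset_span ⟨n, x, rfl⟩)
  have hind : ∀ (K : Submodule ℂ H), IsClosed (K : Set H) → (∀ n x, (S ^ n) (Q x) ∈ K) → M ≤ K := by
    intro K hK h
    refine Submodule.topologicalClosure_minimal _ (Submodule.span_le.2 ?_) hK
    rintro v ⟨n, x, rfl⟩; exact h n x
  have hMc : IsClosed (M : Set H) := Submodule.isClosed_topologicalClosure _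
  have hinv : ∀ A : H →L[ℂ] H, (∀ n x, A ((S ^ n) (Q x)) ∈ M) → ∀ v ∈ M, A v ∈ M := by
    intro A hA v hv
    exact hind (M.comap A.toLinearMap) (hMc.preimage A.continuous) hA hv
  have : CompleteSpace M := hMc.completeSpace_coe
  let P : H →L[ℂ] H := M.starProjection
  have hPs : star P = P := (isSelfAdjoint_starProjection M).star_eq
  have hPP : P * P = P := Submodule.isIdempotentElem_starProjection M
  have hPM : ∀ v, P v ∈ M := fun v => M.starProjection_apply_mem v
  have hPv : ∀ v ∈ M, P v = v := fun v hv => Submodule.starProjection_eq_self_iff.2 hv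
  have hred : ∀ A : H →L[ℂ] H, (∀ v ∈ M, A v ∈ M) → P * A * P = A * P := by
    intro A hA; ext v; exact hPv _ (hA _ (hPM v))
  have hcomm : ∀ A : H →L[ℂ] H, A * S = S * A → A * Q = Q * A → P * A * P = A * P := by
    intro A h1 h2
    refine hred A (hinv A fun n x => ?_)
    have : A * (S ^ n * Q) = S ^ n * Q * A := by
      rw [← mul_assoc, ((Commute.pow_right h1 n) : A * S ^ n = S ^ n * A), mul_assoc, h2, mul_assoc]
    have e : A ((S ^ n) (Q x)) = (S ^ n) (Q (A x)) := congrArg (fun B : H →L[ℂ] H => B x) this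
    rw [e]; exact hgen _ _
  have hst : ∀ B : H →L[ℂ] H, T * B = B * T → star T * B = B * star T := by
    intro B hB
    calc star T * B = star T * B * (T * star T) := by rw [(Unitary.mem_iff.1 hT).2, mul_one]
      _ = star T * (T * B) * star T := by rw [hB]; noncomm_ring
      _ = B * star T := by rw [← mul_assoc, (Unitary.mem_iff.1 hT).1, one_mul]
  refine ⟨P, hPs, hPP, ?_, ?_⟩
  · have e1 := hcomm T hTS hTQ
    have e2 := congrArg star (hcomm (star T) (hst S hTS) (hst Q hTQ))
    simp only [star_mul, star_star, hPs] at e2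
    rw [← e1, mul_assoc, e2]
  · set R := Q + S * P * star S with hR
    have hRs : star R = R := by simp [hR, hQ, hPs, mul_assoc]
    have hSQ : star S * Q = 0 := by
      have := congrArg star hQS
      rwa [star_mul, hQ, star_zero] at this
    have hRM : ∀ v, R v ∈ M := by
      intro v
      refine M.add_mem (by simpa using hgen 0 v) (hinv S (fun n x => ?_) _ (hPM _))
      have := hgen (n + 1) x
      rwa [pow_succ'] at this
    have hRv : ∀ v ∈ M, R v = v := by
      intro v hv
      have := hind (LinearMap.ker (R - 1 : H →L[ℂ] H).toLinearMap) (R - 1).isClosed_ker ?_ hv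
      · simpa [sub_eq_zero] using this
      intro n x
      suffices h : R ((S ^ n) (Q x)) = (S ^ n) (Q x) by simpa [sub_eq_zero] using h
      cases n with
      | zero =>
        have : R * Q = Q := by rw [hR, add_mul, hQQ, mul_assoc, hSQ, mul_zero, add_zero]
        simpa using congrArg (fun B : H →L[ℂ] H => B x) this
      | succ n =>
        have : R * S = S * P := by rw [hR, add_mul, hQS, zero_add, mul_assoc, hS, mul_one]
        have e := congrArg (fun B : H →L[ℂ] H => B ((S ^ n) (Q x))) this
        simp only [mul_apply_eq_comp] at e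
        rw [pow_succ', mul_apply_eq_comp, e, hPv _ (hgen n x)]
    have e1 : P * R = R := by ext v; exact hPv _ (hRM v)
    have e2 : R * P = P := by ext v; exact hRv _ (hPM v)
    have e3 := congrArg star e2
    rw [star_mul, hPs, hRs, e1] at e3
    exact e3.symm

lemma sb (T T' U V : H →L[ℂ] H) (hT : T ∈ unitary (H →L[ℂ] H)) (hT' : T' ∈ unitary (H →L[ℂ] H))
    (hU : star U * U = 1) (hV : star V * V = 1) (h1 : U * T = T' * U) (h2 : V * T' = T * V) :
    ∃ W ∈ unitary (H →L[ℂ] H), W * T = T' * W := by
  have h3 : star V * T = T' * star V := by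
    have := congrArg star h2
    rw [star_mul, star_mul] at this
    calc star V * T = T' * (star T' * star V) * T := by
          rw [← mul_assoc, (Unitary.mem_iff.1 hT').2, one_mul]
      _ = T' * star V * (star T * T) := by rw [this]; noncomm_ring
      _ = _ := by rw [(Unitary.mem_iff.1 hT).1, mul_one]
  have hVV : ∀ X : H →L[ℂ] H, star V * (V * X) = X := fun X => by rw [← mul_assoc, hV, one_mul]
  have hUU : ∀ X : H →L[ℂ] H, star U * (U * X) = X := fun X => by rw [← mul_assoc, hU, one_mul]
  obtain ⟨P, hPs, hPP, hTP, hP⟩ := exP T (V * U) (1 - V * star V) hT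
    (by rw [star_mul, mul_assoc, hVV, hU]) (by simp)
    (by simp only [sub_mul, mul_sub, one_mul, mul_one, mul_assoc, hVV]; abel)
    (by simp only [sub_mul, one_mul, mul_assoc, hVV, sub_self])
    (by rw [← mul_assoc, ← h2, mul_assoc, ← h1, mul_assoc])
    (by rw [mul_sub, sub_mul, mul_one, one_mul, mul_assoc, h3, ← mul_assoc, ← h2, mul_assoc])
  have hPP' : ∀ X : H →L[ℂ] H, P * (P * X) = P * X := fun X => by rw [← mul_assoc, hPP]
  have a1 : P * (V * (U * P)) = V * (U * P) := by
    conv_lhs => lhs; rw [hP]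
    simp only [add_mul, sub_mul, one_mul, mul_assoc, star_mul, hVV, hUU, hPP, sub_self, zero_add]
  have a2 : P * (star U * (star V * P)) = P * (star U * star V) := by
    have := congrArg star a1
    simpa only [star_mul, hPs, mul_assoc] using this
  have a3 : V * (star V * P) = P + V * star V - 1 := by
    have : V * (star V * P) = V * (star V * (1 - V * star V + V * U * P * star (V * U))) := by
      rw [← hP]
    rw [this]
    conv_rhs => rw [hP]
    simp only [mul_add, mul_sub, mul_one, mul_assoc, hVV]
    abel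
  have a4 : P * (V * star V) = P + V * star V - 1 := by
    have := congrArg star a3
    simpa only [star_mul, hPs, mul_assoc, star_add, star_sub, star_one, star_star] using this
  have a5 : star V * (P * V) = U * (P * star U) := by
    conv_lhs => rw [hP]
    simp only [add_mul, mul_add, sub_mul, mul_sub, one_mul, mul_one, mul_assoc, star_mul, hVV, hV]
    abel
  refine ⟨U * P + star V * (1 - P), Unitary.mem_iff.2 ⟨?_, ?_⟩, ?_⟩
  · simp only [star_add, star_mul, star_sub, star_one, star_star, hPs, add_mul, mul_add, sub_mul,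
      mul_sub, one_mul, mul_one, mul_assoc, hUU, hPP, a1, a2, a3, a4]
    abel
  · simp only [star_add, star_mul, star_sub, star_one, star_star, hPs, add_mul, mul_add, sub_mul,
      mul_sub, one_mul, mul_one, mul_assoc, hPP', hV, a5]
    abel
  · simp only [add_mul, mul_add, mul_sub, sub_mul, mul_one, one_mul, mul_assoc, ← hTP]
    simp only [← mul_assoc, h1, h3]

/-- Two unitaries with injective bounded intertwiners in both directions are conjugate. -/
theorem conj_of_inj (T T' : unitary (H →L[ℂ] H)) (F G : H →L[ℂ] H)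
    (hF : Function.Injective F) (hG : Function.Injective G) (h1 : F * T.1 = T'.1 * F)
    (h2 : G * T'.1 = T.1 * G) : IsConj T T' := by
  obtain ⟨U, hU, hU'⟩ := polar T.1 T'.1 F T.2 T'.2 hF h1
  obtain ⟨V, hV, hV'⟩ := polar T'.1 T.1 G T'.2 T.2 hG h2
  obtain ⟨W, hW, hW'⟩ := sb T.1 T'.1 U V T.2 T'.2 hU hV hU' hV'
  rw [isConj_iff]
  refine ⟨⟨W, hW⟩, ?_⟩
  rw [mul_inv_eq_iff_eq_mul]
  exact Subtype.ext hW'

end Pool.Agent.Lib.helper12.QSim
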