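import Mathlib

namespace Pool.Agent.Lib.helper12.ADC

open Finset Matrix

variable {ι : Type} [Fintype ι]

def R (s : ℕ) : Subring ℚ where
  carrier := {q | ∃ (e : ℕ) (z : ℤ), (s.factorial : ℚ) ^ e * q = z}
  mul_mem' := by
    rintro a b ⟨e, z, h⟩ ⟨f, w, k⟩
    exact ⟨e + f, z * w, by push_cast; rw [← h, ← k]; ring⟩
  one_mem' := ⟨0, 1, by simp⟩
  add_mem' := by
    rintro a b ⟨e, z, h⟩ ⟨f, w, k⟩
    exact ⟨e + f, s.factorial ^ f * z + s.factorial ^ e * w, by push_cast; rw [← h, ← k]; ring⟩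
  zero_mem' := ⟨0, 0, by simp⟩
  neg_mem' := by
    rintro a ⟨e, z, h⟩
    exact ⟨e, -z, by push_cast; rw [← h]; ring⟩

theorem inv_mem {s : ℕ} {t : ℤ} (h0 : 0 < t) (h : t ≤ s) : (t : ℚ)⁻¹ ∈ R s := by
  lift t to ℕ using h0.le
  obtain ⟨c, hc⟩ := Nat.dvd_factorial (by exact_mod_cast h0) (show t ≤ s by exact_mod_cast h)
  have : (t : ℚ) ≠ 0 := by exact_mod_cast h0.ne'
  exact ⟨1, c, by rw [hc]; push_cast; field_simp⟩

theorem unif (a : ℕ) (x : ι → ℚ) (h : ∀ l, ∃ (e : ℕ) (z : ℤ), (a : ℚ) ^ e * x l = z) :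
    ∃ e : ℕ, ∀ l, ∃ z : ℤ, (a : ℚ) ^ e * x l = z := by
  choose e z h using h
  refine ⟨∑ l, e l, fun l => ?_⟩
  obtain ⟨d, hd⟩ := Nat.exists_eq_add_of_le (single_le_sum (f := e) (fun _ _ => Nat.zero_le _)
    (mem_univ l))
  exact ⟨a ^ d * z l, by push_cast; rw [hd, ← h]; ring⟩

theorem extract {s : ℕ} (x : ι → ℚ) (h : ∀ l, x l ∈ R (s + 1)) (hn : ¬ ∀ l, x l ∈ R s) :
    ∃ m : ℤ, (∀ l, ∃ z : ℤ, ((s : ℚ) + 1) * (m * x l) = z) ∧ ¬ ∀ l, m * x l ∈ R s := by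
  classical
  have h1 : ∃ e : ℕ, ∀ l, ((s : ℚ) + 1) ^ e * x l ∈ R s := by
    obtain ⟨e, he⟩ := unif _ x h
    refine ⟨e, fun l => ?_⟩
    obtain ⟨z, hz⟩ := he l
    exact ⟨e, z, by rw [← hz, Nat.factorial_succ]; push_cast; rw [mul_pow]; ring⟩
  have h2 := Nat.find_spec h1
  obtain ⟨e, he⟩ : ∃ e, Nat.find h1 = e + 1 := Nat.exists_eq_succ_of_ne_zero fun h0 => by
    rw [h0] at h2; exact hn (by simpa using h2)
  have h3 := Nat.find_min h1 (show e < Nat.find h1 by omega)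
  rw [he] at h2
  obtain ⟨f, hf⟩ := unif _ _ h2
  refine ⟨s.factorial ^ f * (s + 1) ^ e, fun l => ?_, fun h4 => h3 fun l => ?_⟩
  · obtain ⟨z, hz⟩ := hf l
    exact ⟨z, by rw [← hz]; push_cast; ring⟩
  · obtain ⟨g, z, hz⟩ := h4 l
    exact ⟨g + f, z, by rw [← hz]; push_cast; ring⟩

theorem near [Nonempty ι] (hc : Fintype.card ι ≤ 7) (x : ι → ℚ) (n : ℤ) :
    ∃ y : ι → ℤ, Even (y ⬝ᵥ y + n) ∧
      (x - fun l => (y l : ℚ)) ⬝ᵥ (x - fun l => (y l : ℚ)) < 2 := by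
  classical
  obtain ⟨a, -, ha⟩ := exists_max_image univ (fun l => |x l - round (x l)|) univ_nonempty
  have h1 := abs_sub_round (x a)
  have h0 := abs_nonneg (x a - round (x a))
  have hs : ∑ l, (x l - round (x l)) * (x l - round (x l)) ≤ 7 * |x a - round (x a)| ^ 2 := by
    refine (sum_le_card_nsmul _ _ (|x a - round (x a)| ^ 2) fun l _ => ?_).trans ?_
    · rw [← sq, ← sq_abs]; exact pow_le_pow_left₀ (abs_nonneg _) (ha l (mem_univ _)) 2
    · rw [nsmul_eq_mul]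
      exact mul_le_mul_of_nonneg_right (by exact_mod_cast hc) (sq_nonneg _)
  rcases Int.even_or_odd ((fun l => round (x l)) ⬝ᵥ (fun l => round (x l)) + n) with h | h
  · exact ⟨_, h, lt_of_le_of_lt hs (by nlinarith)⟩
  obtain ⟨σ, h2, h3⟩ : ∃ σ : ℤ, σ * σ = 1 ∧ σ * (x a - round (x a)) = |x a - round (x a)| := by
    rcases le_total 0 (x a - round (x a)) with h | h
    · exact ⟨1, rfl, by simp [abs_of_nonneg h]⟩
    · exact ⟨-1, rfl, by simp [abs_of_nonpos h]⟩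
  refine ⟨(fun l => round (x l)) + Pi.single a σ, ?_, ?_⟩
  · obtain ⟨c, hc⟩ := h
    refine ⟨c + 1 + σ * round (x a), ?_⟩
    simp only [add_dotProduct, dotProduct_add, dotProduct_single, single_dotProduct,
      Pi.single_eq_same, Pi.add_apply]
    linear_combination hc + h2
  · have e : (x - fun l => ((((fun l => round (x l)) + Pi.single a σ : ι → ℤ) l : ℤ) : ℚ)) =
        (fun l => x l - round (x l)) - Pi.single a (σ : ℚ) := by
      ext l
      by_cases hl : l = a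
      · subst hl; simp [sub_sub]
      · simp [hl]
    have h4 : (σ : ℚ) * σ = 1 := by exact_mod_cast h2
    rw [e]
    simp only [sub_dotProduct, dotProduct_sub, dotProduct_single, single_dotProduct,
      Pi.single_eq_same, Pi.sub_apply]
    unfold dotProduct
    nlinarith

def refl (u : ι → ℚ) : (ι → ℚ) →ₗ[ℤ] (ι → ℚ) where
  toFun z := z - (z ⬝ᵥ u * (2 / (u ⬝ᵥ u))) • u
  map_add' a b := by rw [add_dotProduct, add_mul, add_smul]; abel
  map_smul' c a := by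
    rw [smul_dotProduct, smul_mul_assoc, smul_assoc, ← smul_sub]
    rfl

theorem refl_dot (u z w : ι → ℚ) : refl u z ⬝ᵥ refl u w = z ⬝ᵥ w := by
  simp only [refl, LinearMap.coe_mk, AddHom.coe_mk, sub_dotProduct, dotProduct_sub,
    smul_dotProduct, dotProduct_smul, smul_eq_mul, dotProduct_comm u w]
  by_cases h : u ⬝ᵥ u = 0
  · simp [h]
  · field_simp; ring

theorem refl_swap {a b : ι → ℚ} (h : a ⬝ᵥ a = b ⬝ᵥ b) : refl (a - b) a = b := by
  by_cases h0 : (a - b) ⬝ᵥ (a - b) = 0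
  · have := dotProduct_self_eq_zero.1 h0
    simp [refl, this, sub_eq_zero.1 this]
  · have : a ⬝ᵥ (a - b) * (2 / ((a - b) ⬝ᵥ (a - b))) = 1 := by
      field_simp
      simp only [sub_dotProduct, dotProduct_sub, dotProduct_comm b a]
      linear_combination h
    change a - (a ⬝ᵥ (a - b) * (2 / ((a - b) ⬝ᵥ (a - b)))) • (a - b) = b
    rw [this]
    simp

variable {M : Type} [AddCommGroup M]

def S (s : ℕ) (f : M →ₗ[ℤ] (ι → ℚ)) : Submodule ℤ M where
  carrier := {c | ∀ l, f c l ∈ R s}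
  add_mem' h k l := by rw [map_add]; exact add_mem (h l) (k l)
  zero_mem' l := by rw [map_zero]; exact zero_mem _
  smul_mem' c x h l := by rw [map_smul]; exact zsmul_mem (h l) c

theorem step (hc : Fintype.card ι ≤ 7) {s : ℕ} (g : M → M → ℤ) (f : M →ₗ[ℤ] (ι → ℚ))
    (hg : ∀ c d, f c ⬝ᵥ f d = g c d) (h : ∀ c, c ∈ S (s + 1) f) {c : M} (hn : c ∉ S s f) :
    ∃ f' : M →ₗ[ℤ] (ι → ℚ), (∀ c d, f' c ⬝ᵥ f' d = g c d) ∧ (∀ c, c ∈ S (s + 1) f') ∧
      S s f < S s f' := by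
  obtain ⟨m, h1, h2⟩ := extract (f c) (h c) hn
  have hx : ∀ l, f (m • c) l = m * f c l := fun l => by simp
  simp only [← hx] at h1 h2
  generalize m • c = c at h1 h2
  have : Nonempty ι := by
    by_contra h0
    exact h2 fun l => (h0 ⟨l⟩).elim
  obtain ⟨y, ⟨k, hk⟩, hy⟩ := near hc (f c) (g c c)
  choose z hz using h1
  set v := f c - fun l => (y l : ℚ) with hv
  have hv0 : 0 < v ⬝ᵥ v := lt_of_le_of_ne (sum_nonneg fun l _ => mul_self_nonneg _) fun h0 =>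
    h2 fun l => by
      rw [sub_eq_zero.1 (dotProduct_self_eq_zero.1 h0.symm)]; exact intCast_mem _ _
  have hyy : (fun l => (y l : ℚ)) ⬝ᵥ (fun l => (y l : ℚ)) = k + k - g c c := by
    have : ((y ⬝ᵥ y + g c c : ℤ) : ℚ) = (k + k : ℤ) := by rw [hk]
    unfold dotProduct at this ⊢
    push_cast at this
    linear_combination this
  have hzy : ((s : ℚ) + 1) * (f c ⬝ᵥ fun l => (y l : ℚ)) = (z ⬝ᵥ y : ℤ) := by
    unfold dotProduct
    push_cast
    rw [mul_sum]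
    exact sum_congr rfl fun l _ => by rw [← hz]; ring
  have hvv : v ⬝ᵥ v = 2 * k - 2 * (f c ⬝ᵥ fun l => (y l : ℚ)) := by
    simp only [hv, sub_dotProduct, dotProduct_sub, dotProduct_comm _ (f c), hyy, hg]
    ring
  obtain ⟨t, ht⟩ : ∃ t : ℤ, (t : ℚ) = (s + 1) * (v ⬝ᵥ v) / 2 :=
    ⟨(s + 1) * k - z ⬝ᵥ y, by rw [Int.cast_sub, ← hzy, hvv]; push_cast; ring⟩
  have hs : (0 : ℚ) < s + 1 := by positivity
  have t0 : 0 < t := by
    have : (0 : ℚ) < t := by rw [ht]; positivity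
    exact_mod_cast this
  have t1 : t ≤ s := by
    have : (t : ℚ) < s + 1 := by rw [ht]; nlinarith
    have : t < s + 1 := by exact_mod_cast this
    omega
  have hvl : ∀ l, ((s : ℚ) + 1) * v l = (z l - (s + 1) * y l : ℤ) := fun l => by
    push_cast; rw [← hz, hv]; simp [mul_sub]
  have hr : ∀ (w : ι → ℚ) l, refl v w l = w l - w ⬝ᵥ v * (t : ℚ)⁻¹ * ((s + 1) * v l) :=
    fun w l => by
      simp only [refl, LinearMap.coe_mk, AddHom.coe_mk, Pi.sub_apply, Pi.smul_apply, smul_eq_mul,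
        ht]
      field_simp
  have key : ∀ u, s ≤ u → ∀ d ∈ S u f, d ∈ S u (refl v ∘ₗ f) := fun u hu d hd l => by
    rw [LinearMap.comp_apply, hr, hvl]
    refine sub_mem (hd l) (mul_mem (mul_mem ?_ (inv_mem t0 (by omega))) (intCast_mem _ _))
    rw [hv, dotProduct_sub, hg]
    exact sub_mem (intCast_mem _ _) (sum_mem fun l _ => mul_mem (hd l) (intCast_mem _ _))
  refine ⟨refl v ∘ₗ f, fun c d => (refl_dot _ _ _).trans (hg c d),
    fun d => key _ (by omega) d (h d), lt_of_le_of_ne (key s le_rfl) fun e => h2 ?_⟩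
  change c ∈ S s f
  rw [e]
  intro l
  have : refl v (f c) l = y l + (k - g c c : ℤ) * (t : ℚ)⁻¹ * ((s + 1) * v l) := by
    have t2 : (t : ℚ) ≠ 0 := by exact_mod_cast t0.ne'
    have e1 : f c l = y l + v l := by simp [hv]
    have e2 : f c ⬝ᵥ v = g c c - (f c ⬝ᵥ fun l => (y l : ℚ)) := by rw [hv, dotProduct_sub, hg]
    rw [hr, e1, e2]
    rw [hvv] at ht
    push_cast
    field_simp
    linear_combination (v l) * ht
  rw [LinearMap.comp_apply, this, hvl]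
  exact add_mem (intCast_mem _ _) (mul_mem (mul_mem (intCast_mem _ _) (inv_mem t0 t1))
    (intCast_mem _ _))

theorem down [IsNoetherian ℤ M] (hc : Fintype.card ι ≤ 7) (g : M → M → ℤ) (s : ℕ) :
    ∀ f : M →ₗ[ℤ] (ι → ℚ), (∀ c d, f c ⬝ᵥ f d = g c d) → (∀ c, c ∈ S s f) →
      ∃ f' : M →ₗ[ℤ] (ι → ℚ), (∀ c d, f' c ⬝ᵥ f' d = g c d) ∧ ∀ c, c ∈ S 0 f' := by
  induction s with
  | zero => exact fun f h1 h2 => ⟨f, h1, h2⟩
  | succ s ih =>
    intro f h1 h2
    obtain ⟨_, ⟨f', ⟨k1, k2⟩, rfl⟩, hm⟩ := set_has_maximal_iff_noetherian.2 ‹IsNoetherian ℤ M›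
      (S s '' {f : M →ₗ[ℤ] (ι → ℚ) | (∀ c d, f c ⬝ᵥ f d = g c d) ∧ ∀ c, c ∈ S (s + 1) f})
      ⟨_, f, ⟨h1, h2⟩, rfl⟩
    refine ih f' k1 fun c => by_contra fun hn => ?_
    obtain ⟨f2, l1, l2, l3⟩ := step hc g f' k1 k2 hn
    exact hm _ ⟨f2, ⟨l1, l2⟩, rfl⟩ l3

theorem integral {κ : Type} [Fintype κ] (hc : Fintype.card ι ≤ 7) (b : κ → ι → ℚ)
    (h : ∀ i j, ∃ z : ℤ, b i ⬝ᵥ b j = z) :
    ∃ b' : κ → ι → ℤ, ∀ i j, ((b' i ⬝ᵥ b' j : ℤ) : ℚ) = b i ⬝ᵥ b j := by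
  classical
  choose G hG using h
  have hf : ∀ c d : κ → ℤ, Fintype.linearCombination ℤ b c ⬝ᵥ Fintype.linearCombination ℤ b d =
      (∑ i, ∑ j, c i * d j * G i j : ℤ) := fun c d => by
    simp only [Fintype.linearCombination_apply, sum_dotProduct, dotProduct_sum, smul_dotProduct,
      dotProduct_smul, hG]
    push_cast
    rw [sum_comm]
    simp only [zsmul_eq_mul, mul_sum]
    refine sum_congr rfl fun i _ => sum_congr rfl fun j _ => ?_
    ring
  obtain ⟨f, h1, h2⟩ := down hc _ (∑ i, ∑ l, (b i l).den) _ hf fun c l => by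
    rw [Fintype.linearCombination_apply, Finset.sum_apply]
    refine sum_mem fun i _ => zsmul_mem ?_ _
    rw [← Rat.num_div_den (b i l), div_eq_mul_inv]
    refine mul_mem (intCast_mem _ _) (inv_mem (t := (b i l).den) (by exact_mod_cast Rat.pos _) ?_)
    exact_mod_cast (single_le_sum (f := fun l => (b i l).den) (fun _ _ => Nat.zero_le _)
      (mem_univ l)).trans (single_le_sum (f := fun i => ∑ l, (b i l).den)
        (fun _ _ => Nat.zero_le _) (mem_univ i))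
  choose e z hz using fun i l => h2 (Pi.single i 1) l
  refine ⟨z, fun i j => ?_⟩
  have := (h1 (Pi.single i 1) (Pi.single j 1)).trans (hf _ _).symm
  simp only [Fintype.linearCombination_apply_single, one_smul] at this
  rw [← this]
  unfold dotProduct
  push_cast
  exact sum_congr rfl fun l _ => by rw [← hz, ← hz]; simp

end Pool.Agent.Lib.helper12.ADC
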