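import Mathlib

namespace Pool.Agent.Lib.helper12.AV

open Matrix Finset

theorem tr_int {ι : Type} [Fintype ι] [DecidableEq ι] (M : Matrix ι ι ℂ) {N : ℕ} (hN : 0 < N)
    (h : M ^ (N + 1) = M) : IsIntegral ℤ M.trace := by
  rw [Matrix.trace_eq_sum_roots_charpoly]
  refine IsIntegral.multiset_sum fun z hz => ?_
  have h1 : z ∈ spectrum ℂ M :=
    Matrix.mem_spectrum_iff_isRoot_charpoly.2 (Polynomial.isRoot_of_mem_roots hz)
  cases isEmpty_or_nonempty ι
  · simp [Subsingleton.elim M 0] at hz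
  have h2 := spectrum.subset_polynomial_aeval M (Polynomial.X ^ (N + 1) - Polynomial.X) ⟨z, h1, rfl⟩
  simp only [map_sub, map_pow, Polynomial.aeval_X, h, sub_self, spectrum.zero_eq] at h2
  refine ⟨Polynomial.X ^ (N + 1) - Polynomial.X, Polynomial.monic_X_pow_sub (by
    rw [Polynomial.degree_X]; exact_mod_cast (by omega : 1 < N + 1)), ?_⟩
  simpa using h2

variable {H ι : Type} [Group H] [Fintype ι] [DecidableEq ι] (R : H →* Matrix ι ι ℂ)

def K {κ : Type} [Fintype κ] (σ : Equiv.Perm κ) (h : κ → H) : Matrix (κ → ι) (κ → ι) ℂ :=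
  Matrix.of fun i j => ∏ t, R (h t) (i t) (j (σ t))

theorem K_mul {κ : Type} [Fintype κ] [DecidableEq κ] (σ τ : Equiv.Perm κ) (h g : κ → H) :
    K R σ h * K R τ g = K R (τ * σ) (fun t => h t * g (σ t)) := by
  ext i k
  simp only [K, Matrix.mul_apply, of_apply, map_mul, Equiv.Perm.mul_apply]
  rw [Fintype.prod_sum, ← (Equiv.arrowCongr σ (Equiv.refl ι)).sum_comp]
  refine Finset.sum_congr rfl fun j _ => ?_
  rw [← Equiv.prod_comp σ fun t => R (g t) _ (k (τ t)), ← Finset.prod_mul_distrib]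
  simp

theorem K_one {κ : Type} [Fintype κ] [DecidableEq κ] : K R (1 : Equiv.Perm κ) 1 = 1 := by
  ext i j
  simp only [K, of_apply, Pi.one_apply, map_one, Equiv.Perm.one_apply, Matrix.one_apply,
    Finset.prod_boole, funext_iff]
  simp

theorem K_fin [Finite H] {κ : Type} [Fintype κ] [DecidableEq κ] (σ : Equiv.Perm κ) (h : κ → H) :
    ∃ N, 0 < N ∧ K R σ h ^ N = 1 := by
  have h1 : ∀ n : ℕ, ∃ g, K R σ h ^ n = K R (σ ^ n) g := by
    intro n
    induction n with
    | zero => exact ⟨1, by rw [pow_zero, pow_zero, K_one]⟩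
    | succ n ih =>
      obtain ⟨g, hg⟩ := ih
      exact ⟨_, by rw [pow_succ, hg, K_mul, pow_succ']⟩
  have h2 : ∀ (g : κ → H) (n : ℕ), K R 1 g ^ n = K R 1 (g ^ n) := by
    intro g n
    induction n with
    | zero => rw [pow_zero, pow_zero, K_one]
    | succ n ih => rw [pow_succ, ih, K_mul, pow_succ]; rfl
  obtain ⟨g, hg⟩ := h1 (orderOf σ)
  exact ⟨orderOf σ * orderOf g, Nat.mul_pos (orderOf_pos _) (orderOf_pos _), by
    rw [pow_mul, hg, pow_orderOf_eq_one, h2, pow_orderOf_eq_one, K_one]⟩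

theorem path : ∀ (n : ℕ) (A : Fin (n + 1) → Matrix ι ι ℂ) (x y : ι),
    ∑ i : Fin n → ι, ∏ t, A t ((Fin.cons x i : Fin (n + 1) → ι) t)
      ((Fin.snoc i y : Fin (n + 1) → ι) t) = (List.ofFn A).prod x y := by
  intro n
  induction n with
  | zero => intro A x y; simp [Fin.snoc]
  | succ n ih =>
    intro A x y
    rw [List.ofFn_succ, List.prod_cons, Matrix.mul_apply,
      ← (Fin.consEquiv fun _ : Fin (n + 1) => ι).sum_comp, Fintype.sum_prod_type]
    refine Finset.sum_congr rfl fun z _ => ?_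
    rw [← ih, Finset.mul_sum]
    refine Finset.sum_congr rfl fun i _ => ?_
    rw [Fin.prod_univ_succ]
    simp [Fin.consEquiv, ← Fin.cons_snoc_eq_snoc_cons]

theorem K_trace {n : ℕ} (h : Fin (n + 1) → H) :
    (K R (finRotate (n + 1)) h).trace = (R (List.ofFn h).prod).trace := by
  rw [map_list_prod, List.map_ofFn, Matrix.trace, Matrix.trace,
    ← (Fin.consEquiv fun _ : Fin (n + 1) => ι).sum_comp, Fintype.sum_prod_type]
  refine Finset.sum_congr rfl fun x _ => ?_
  rw [diag_apply, ← path]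
  refine Finset.sum_congr rfl fun i _ => ?_
  simp only [diag_apply, K, of_apply, Fin.snoc_eq_cons_rotate]
  rfl

theorem core_nat [Finite H] (C : Subgroup H) [Fintype C] {a m : H}
    (ha : ∀ c, c ∈ C ↔ a * c * a⁻¹ ∈ C) (hm : ∀ c ∈ C, m * c = c * m) (n : ℕ) :
    IsIntegral ℤ ((Fintype.card C : ℂ)⁻¹ * ∑ c : C, (R (m * (a * c) ^ n)).trace) := by
  have hC : (Fintype.card C : ℂ) ≠ 0 := by exact_mod_cast Fintype.card_ne_zero
  rcases n with _ | n
  · simp only [pow_zero, mul_one, sum_const, card_univ, nsmul_eq_mul, inv_mul_cancel_left₀ hC]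
    exact tr_int _ (orderOf_pos m) (by rw [← map_pow, pow_succ, pow_orderOf_eq_one, one_mul])
  let T := K R (finRotate (n + 1)) (Fin.cons (m * a) fun _ => a)
  let E : Matrix (Fin (n + 1) → ι) (Fin (n + 1) → ι) ℂ :=
    (Fintype.card C : ℂ)⁻¹ • ∑ c : C, K R 1 fun _ => c.1
  let φ : C ≃ C := (MulAut.conj a).toEquiv.subtypeEquiv ha
  have hTE : Commute T E := by
    refine Commute.smul_right ?_ _
    show _ = _
    rw [Finset.mul_sum, Finset.sum_mul]
    refine Fintype.sum_equiv φ _ _ fun c => ?_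
    simp only [T, K_mul, one_mul, mul_one]
    congr 1
    funext t
    refine Fin.cases ?_ (fun t => ?_) t
    · show m * a * c = a * c * a⁻¹ * (m * a)
      rw [← mul_assoc, ← hm _ ((ha c).1 c.2)]
      group
    · show a * c = a * c * a⁻¹ * a
      group
  have hE : E * E = E := by
    simp only [E, smul_mul_smul_comm, Finset.sum_mul, Finset.mul_sum, K_mul, mul_one]
    have : ∀ d : C, ∑ c : C, K R 1 (fun _ : Fin (n + 1) => c.1 * d.1) =
        ∑ c : C, K R 1 fun _ => c.1 := fun d =>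
      Fintype.sum_equiv (Equiv.mulRight d) _ _ fun c => rfl
    simp only [this, sum_const, card_univ, ← Nat.cast_smul_eq_nsmul ℂ, smul_smul,
      inv_mul_cancel_right₀ hC]
  obtain ⟨N, hN, hT⟩ := K_fin R (finRotate (n + 1)) (Fin.cons (m * a) fun _ => a)
  have := tr_int (T * E) hN (by
    rw [hTE.mul_pow, pow_succ T, hT, one_mul, IsIdempotentElem.pow_succ_eq _ hE])
  simp only [E, T, Matrix.mul_smul, trace_smul, Finset.mul_sum, trace_sum, K_mul, one_mul,
    K_trace, smul_eq_mul] at this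
  simpa [List.ofFn_succ, pow_succ', mul_assoc, Finset.mul_sum] using this

theorem core [Finite H] (C : Subgroup H) [Fintype C] {a m : H}
    (ha : ∀ c, c ∈ C ↔ a * c * a⁻¹ ∈ C) (hm : ∀ c ∈ C, m * c = c * m) (n : ℤ) :
    IsIntegral ℤ ((Fintype.card C : ℂ)⁻¹ * ∑ c : C, (R (m * (a * c) ^ n)).trace) := by
  obtain ⟨n, rfl | rfl⟩ := n.eq_nat_or_neg
  · simpa using core_nat R C ha hm n
  · have := core_nat R C (a := a⁻¹) (fun c => by rw [ha (a⁻¹ * c * a⁻¹⁻¹)]; group) hm n
    rw [← Fintype.sum_equiv (((MulAut.conj a).toEquiv.subtypeEquiv ha).trans (Equiv.inv C))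
      (fun c : C => (R (m * (a * c) ^ (-(n : ℤ)))).trace) _ fun c => by
        rw [_root_.zpow_neg, zpow_natCast, ← inv_pow]
        congr 4
        show (a * c)⁻¹ = a⁻¹ * (a * c * a⁻¹)⁻¹
        group] at this
    exact this

theorem orbits {Q : Type} [Fintype H] [Fintype Q] [MulAction H Q] (F : Q → ℂ)
    (h1 : ∀ (h : H) q, F (h • q) = F q)
    (h2 : ∀ q, IsIntegral ℤ ((Nat.card (MulAction.stabilizer H q) : ℂ)⁻¹ * F q)) :
    IsIntegral ℤ ((Nat.card H : ℂ)⁻¹ * ∑ q, F q) := by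
  classical
  rw [← (MulAction.selfEquivSigmaOrbits H Q).symm.sum_comp, Fintype.sum_sigma, Finset.mul_sum]
  refine IsIntegral.sum _ fun ω _ => ?_
  have e : ∀ y : MulAction.orbit H ω.out,
      F ((MulAction.selfEquivSigmaOrbits H Q).symm ⟨ω, y⟩) = F ω.out := by
    rintro ⟨_, h, rfl⟩
    exact h1 h _
  simp only [e, sum_const, card_univ, nsmul_eq_mul]
  have h3 := MulAction.card_orbit_mul_card_stabilizer_eq_card_group H ω.out
  have h4 : (Fintype.card (MulAction.orbit H ω.out) : ℂ) ≠ 0 := by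
    have : Nonempty (MulAction.orbit H ω.out) := ⟨⟨_, MulAction.mem_orbit_self _⟩⟩
    exact_mod_cast Fintype.card_ne_zero
  have := h2 ω.out
  rw [Nat.card_eq_fintype_card] at this ⊢
  rwa [← h3, Nat.cast_mul, _root_.mul_inv_rev, mul_assoc, inv_mul_cancel_left₀ h4]

variable {r : ℕ}

def Cen (x : Fin (r + 1) → H) : Subgroup H where
  carrier := {c | ∀ (k : ℤ) (j : Fin r), Commute c (x 0 ^ k * x j.succ * (x 0 ^ k)⁻¹)}
  one_mem' _ _ := Commute.one_left _
  mul_mem' ha hb k j := (ha k j).mul_left (hb k j)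
  inv_mem' ha k j := (ha k j).inv_left

theorem cen_conj (x : Fin (r + 1) → H) (n : ℤ) {c : H} (hc : c ∈ Cen x) :
    x 0 ^ n * c * (x 0 ^ n)⁻¹ ∈ Cen x := fun k j => by
  have := (hc (-n + k) j).map (MulAut.conj (x 0 ^ n))
  simp only [MulAut.conj_apply] at this
  rwa [show x 0 ^ n * (x 0 ^ (-n + k) * x j.succ * (x 0 ^ (-n + k))⁻¹) * (x 0 ^ n)⁻¹ =
    x 0 ^ k * x j.succ * (x 0 ^ k)⁻¹ by group] at this

theorem cen_iff (x : Fin (r + 1) → H) (c : H) : c ∈ Cen x ↔ x 0 * c * (x 0)⁻¹ ∈ Cen x :=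
  ⟨fun h => by simpa using cen_conj x 1 h, fun h => by
    simpa [mul_assoc] using cen_conj x (-1) h⟩

theorem pow_tw (x : Fin (r + 1) → H) {c : H} (hc : c ∈ Cen x) (n : ℤ) :
    (x 0 * c) ^ n * (x 0 ^ n)⁻¹ ∈ Cen x := by
  induction n using Int.induction_on with
  | zero => simp
  | succ n ih =>
    have := (Cen x).mul_mem ih (cen_conj x (n + 1) hc)
    rwa [show (x 0 * c) ^ (n : ℤ) * (x 0 ^ (n : ℤ))⁻¹ * (x 0 ^ ((n : ℤ) + 1) * c *
      (x 0 ^ ((n : ℤ) + 1))⁻¹) = (x 0 * c) ^ (n : ℤ) * (x 0 * c) * (x 0 ^ ((n : ℤ) + 1))⁻¹ by group,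
      ← _root_.zpow_add_one] at this
  | pred n ih =>
    have := (Cen x).mul_mem ih (cen_conj x (-n) ((Cen x).inv_mem hc))
    rwa [show (x 0 * c) ^ (-n : ℤ) * (x 0 ^ (-n : ℤ))⁻¹ * (x 0 ^ (-n : ℤ) * c⁻¹ *
      (x 0 ^ (-n : ℤ))⁻¹) = (x 0 * c) ^ (-n : ℤ) * (x 0 * c)⁻¹ * (x 0 ^ ((-n : ℤ) - 1))⁻¹ by group,
      ← _root_.zpow_sub_one] at this

theorem conj_tw (x : Fin (r + 1) → H) {c : H} (hc : c ∈ Cen x) (n : ℤ) {m : H}
    (hm : m ∈ Subgroup.centralizer (Cen x : Set H)) :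
    x 0 ^ n * m * (x 0 ^ n)⁻¹ ∈ Subgroup.centralizer (Cen x : Set H) ∧
      (x 0 * c) ^ n * m * ((x 0 * c) ^ n)⁻¹ = x 0 ^ n * m * (x 0 ^ n)⁻¹ := by
  have h1 : x 0 ^ n * m * (x 0 ^ n)⁻¹ ∈ Subgroup.centralizer (Cen x : Set H) := fun d hd => by
    have := hm _ (cen_conj x (-n) hd)
    calc _ = x 0 ^ n * (x 0 ^ (-n) * d * (x 0 ^ (-n))⁻¹ * m) * (x 0 ^ n)⁻¹ := by group
      _ = _ := by rw [this]; group
  refine ⟨h1, ?_⟩
  have := h1 _ (pow_tw x hc n)
  calc _ = ((x 0 * c) ^ n * (x 0 ^ n)⁻¹ * (x 0 ^ n * m * (x 0 ^ n)⁻¹)) *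
        ((x 0 * c) ^ n * (x 0 ^ n)⁻¹)⁻¹ := by group
    _ = _ := by rw [this]; group

def tw (x : Fin (r + 1) → H) (c : H) : Fin (r + 1) → H := Fin.cons (x 0 * c) (Fin.tail x)

theorem gen_mem (x : Fin (r + 1) → H) (j : Fin r) :
    x j.succ ∈ Subgroup.centralizer (Cen x : Set H) := fun c hc => by
  simpa using (hc 0 j).eq

theorem word (x : Fin (r + 1) → H) (w : FreeGroup (Fin (r + 1))) :
    ∃ (n : ℤ) (m : H), m ∈ Subgroup.centralizer (Cen x : Set H) ∧
      ∀ c ∈ Cen x, FreeGroup.lift (tw x c) w = m * (x 0 * c) ^ n := by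
  induction w using FreeGroup.induction_on with
  | C1 => exact ⟨0, 1, one_mem _, by simp⟩
  | of j =>
    refine Fin.cases ⟨1, 1, one_mem _, by simp [tw]⟩ (fun j => ⟨0, _, gen_mem x j, ?_⟩) j
    simp [tw, Fin.tail]
  | inv_of j h =>
    obtain ⟨n, m, hm, h⟩ := h
    refine ⟨-n, _, (conj_tw x (one_mem _) (-n) (inv_mem hm)).1, fun c hc => ?_⟩
    rw [map_inv, h c hc, ← (conj_tw x hc (-n) (inv_mem hm)).2]
    group
  | mul u v hu hv =>
    obtain ⟨n, m, hm, h⟩ := hu
    obtain ⟨n', m', hm', h'⟩ := hv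
    refine ⟨n + n', _, mul_mem hm (conj_tw x (one_mem _) n hm').1, fun c hc => ?_⟩
    rw [map_mul, h c hc, h' c hc, ← (conj_tw x hc n hm').2]
    group

theorem cen_tw (x : Fin (r + 1) → H) {c : H} (hc : c ∈ Cen x) : Cen (tw x c) = Cen x := by
  ext d
  refine forall_congr' fun k => forall_congr' fun j => ?_
  show Commute d ((x 0 * c) ^ k * x j.succ * ((x 0 * c) ^ k)⁻¹) ↔ _
  rw [(conj_tw x hc k (gen_mem x j)).2]

open Pointwise

def key (x : Fin (r + 1) → H) : Set H × (Fin r → H) := ({y | (x 0)⁻¹ * y ∈ Cen x}, Fin.tail x)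

theorem key_eq {x y : Fin (r + 1) → H} : key y = key x ↔ ∃ c ∈ Cen x, tw x c = y := by
  constructor
  · intro h
    obtain ⟨h1, h2⟩ := Prod.mk.inj h
    refine ⟨(x 0)⁻¹ * y 0, ?_, ?_⟩
    · exact (Set.ext_iff.1 h1 (y 0)).1 (by simp)
    · rw [tw, ← h2, mul_inv_cancel_left, Fin.cons_self_tail]
  · rintro ⟨c, hc, rfl⟩
    refine Prod.ext (Set.ext fun z => ?_) rfl
    show (x 0 * c)⁻¹ * z ∈ Cen (tw x c) ↔ (x 0)⁻¹ * z ∈ Cen x
    rw [cen_tw x hc, _root_.mul_inv_rev, mul_assoc, Subgroup.mul_mem_cancel_left _ (inv_mem hc)]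

theorem key_smul (h : ConjAct H) (x : Fin (r + 1) → H) : key (h • x) = h • key x := by
  refine Prod.ext (Set.ext fun z => ?_) rfl
  obtain ⟨z, rfl⟩ := (MulAction.toPerm h).surjective z
  show ((h • x) 0)⁻¹ * h • z ∈ Cen (h • x) ↔ h • z ∈ h • (key x).1
  rw [Set.smul_mem_smul_set_iff]
  refine forall_congr' fun k => forall_congr' fun j => ?_
  simp only [Pi.smul_apply, ← smul_zpow', ← smul_inv', ← smul_mul', commute_iff_eq,
    smul_left_cancel_iff]

theorem stab_le (x : Fin (r + 1) → H) (h : ConjAct H) (hh : h • key x = key x) :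
    ConjAct.ofConjAct h ∈ Cen x := by
  rw [← key_smul] at hh
  obtain ⟨c, hc, e⟩ := key_eq.1 hh
  intro k j
  have e0 : x 0 * c = h • x 0 := congrFun e 0
  have e1 : x j.succ = h • x j.succ := congrFun e j.succ
  have := (conj_tw x hc k (gen_mem x j)).2
  rw [e0, ← smul_zpow', ← smul_inv'] at this
  nth_rewrite 1 [e1] at this
  rw [← smul_mul', ← smul_mul', ConjAct.smul_def, mul_inv_eq_iff_eq_mul] at this
  exact this

theorem integral [Fintype H] (w : FreeGroup (Fin (r + 1))) : IsIntegral ℤ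
    ((Nat.card H : ℂ)⁻¹ * ∑ x : Fin (r + 1) → H, (R (FreeGroup.lift x w)).trace) := by
  classical
  rw [← Finset.sum_fiberwise univ key]
  refine orbits (H := ConjAct H) _ (fun h q => ?_) fun q => ?_
  · symm
    refine Finset.sum_equiv (MulAction.toPerm h) (fun x => by simp [key_smul]) fun x _ => ?_
    have : FreeGroup.lift (h • x) w = h • FreeGroup.lift x w :=
      DFunLike.congr_fun (FreeGroup.ext_hom (FreeGroup.lift (h • x))
        ((MulDistribMulAction.toMonoidHom H h).comp (FreeGroup.lift x)) fun a => by simp) w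
    rw [MulAction.toPerm_apply, this, ConjAct.smul_def, map_mul, trace_mul_comm, ← map_mul,
      inv_mul_cancel_left]
  by_cases hq : ∃ x, key x = q
  · obtain ⟨x, rfl⟩ := hq
    obtain ⟨n, m, hm, h⟩ := word x w
    have h1 := core R (Cen x) (cen_iff x) (fun c hc => (hm c hc).symm) n
    have h2 : ∑ y ∈ univ with key y = key x, (R (FreeGroup.lift y w)).trace =
        ∑ c : Cen x, (R (m * (x 0 * c) ^ n)).trace := by
      symm
      refine Finset.sum_bij (fun c _ => tw x c) (fun c _ => by simpa using (key_eq (x := x)).2 ⟨c, c.2, rfl⟩)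
        (fun c _ d _ e => Subtype.ext (mul_left_cancel (congrFun e 0 :))) (fun y hy => ?_)
        fun c _ => by rw [h c c.2]
      obtain ⟨c, hc, e⟩ := key_eq.1 (Finset.mem_filter.1 hy).2
      exact ⟨⟨c, hc⟩, mem_univ _, e⟩
    obtain ⟨k, hk⟩ : Nat.card (MulAction.stabilizer (ConjAct H) (key x)) ∣ Nat.card (Cen x) :=
      Subgroup.card_dvd_of_le (H := MulAction.stabilizer (ConjAct H) (key x)) (K := Cen x)
        fun h hh => stab_le x h hh
    have h3 : (Nat.card (MulAction.stabilizer (ConjAct H) (key x)) : ℂ) ≠ 0 := by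
      exact_mod_cast Nat.card_pos.ne'
    have h4 : (k : ℂ) ≠ 0 := by
      rintro h0
      rw [Nat.cast_eq_zero.1 h0, mul_zero] at hk
      exact Nat.card_pos.ne' hk
    have := (isIntegral_natCast (R := ℤ) k).mul h1
    rwa [← Nat.card_eq_fintype_card, hk, Nat.cast_mul, _root_.mul_inv_rev, mul_assoc,
      mul_inv_cancel_left₀ h4, ← h2] at this
  · rw [Finset.sum_eq_zero fun x hx => (hq ⟨x, (Finset.mem_filter.1 hx).2⟩).elim, mul_zero]
    exact isIntegral_zero

theorem integral_rep [Fintype H] {V : Type} [AddCommGroup V] [Module ℂ V] [FiniteDimensional ℂ V]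
    (ρ : Representation ℂ H V) (hr : 1 ≤ r) (w : FreeGroup (Fin r)) : IsIntegral ℤ
    ((Nat.card H : ℂ)⁻¹ * ∑ x : Fin r → H, ρ.character (FreeGroup.lift x w)) := by
  obtain ⟨r, rfl⟩ : ∃ s, r = s + 1 := ⟨r - 1, by omega⟩
  let b := Module.finBasis ℂ V
  have := integral ((LinearMap.toMatrixAlgEquiv b).toMonoidHom.comp ρ) w
  simp only [Representation.character, LinearMap.trace_eq_matrix_trace ℂ b]
  exact this

open Classical in
theorem gen_sum [Fintype H] {V : Type} [AddCommGroup V] [Module ℂ V] [FiniteDimensional ℂ V]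
    (ρ : Representation ℂ H V) (L : Subgroup H) :
    ∑ g ∈ univ with Subgroup.zpowers g = L, ρ.character g ∈ (⊥ : Subring ℂ) := by
  induction L using WellFoundedLT.induction with
  | ind L ih =>
    have h0 : (Nat.card L : ℂ) ≠ 0 := by exact_mod_cast Nat.card_pos.ne'
    have := invertibleOfNonzero h0
    have h1 := Representation.card_inv_mul_sum_char_eq_finrank (ρ.comp L.subtype)
    rw [inv_mul_eq_iff_eq_mul₀ h0] at h1
    have h2 : ∑ g ∈ univ with g ∈ L, ρ.character g ∈ (⊥ : Subring ℂ) := by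
      rw [Finset.sum_subtype (p := (· ∈ L)) _ (by simp)]
      exact h1 ▸ mul_mem (natCast_mem _ _) (natCast_mem _ _)
    have := Fintype.ofFinite (Subgroup H)
    rw [← Finset.sum_fiberwise_of_maps_to (t := univ.filter (· ≤ L)) (g := Subgroup.zpowers)
      (by simp), ← Finset.add_sum_erase _ _ (a := L) (by simp)] at h2
    have e : ∀ M ≤ L, (univ.filter (· ∈ L)).filter (fun g => Subgroup.zpowers g = M) =
        univ.filter fun g => Subgroup.zpowers g = M := fun M hM => by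
      ext g
      simp only [mem_filter, mem_univ, true_and, and_iff_right_iff_imp]
      rintro rfl
      exact hM (Subgroup.mem_zpowers g)
    have h3 := sub_mem h2 (sum_mem (f := fun M => ∑ i ∈ univ.filter (· ∈ L) with
        Subgroup.zpowers i = M, ρ.character i) fun M (hM : M ∈ (univ.filter (· ≤ L)).erase L) => by
      simp only [mem_erase, mem_filter, mem_univ, true_and] at hM
      rw [e M hM.2]
      exact ih M (lt_of_le_of_ne hM.2 hM.1))
    rwa [add_sub_cancel_right, e L le_rfl] at h3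

theorem rat_sum [Fintype H] {V : Type} [AddCommGroup V] [Module ℂ V] [FiniteDimensional ℂ V]
    (ρ : Representation ℂ H V) (N : H → ℕ)
    (hN : ∀ g h, Subgroup.zpowers g = Subgroup.zpowers h → N g = N h) :
    ∃ z : ℤ, ∑ g, (N g : ℂ) * ρ.character g = z := by
  classical
  have := Fintype.ofFinite (Subgroup H)
  suffices h : ∑ g, (N g : ℂ) * ρ.character g ∈ (⊥ : Subring ℂ) from
    let ⟨z, hz⟩ := Subring.mem_bot.1 h; ⟨z, hz.symm⟩
  rw [← Finset.sum_fiberwise univ Subgroup.zpowers]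
  refine sum_mem fun L _ => ?_
  rcases (univ.filter fun g => Subgroup.zpowers g = L).eq_empty_or_nonempty with h | ⟨g, hg⟩
  · rw [h]; exact zero_mem _
  · rw [Finset.sum_congr rfl fun x hx => by
      rw [hN x g ((mem_filter.1 hx).2.trans (mem_filter.1 hg).2.symm)], ← Finset.mul_sum]
    exact mul_mem (natCast_mem _ _) (gen_sum ρ L)

theorem int_of_rat {z : ℂ} (h : IsIntegral ℤ z) {a b : ℤ} (hb : b ≠ 0) (e : b * z = a) :
    ∃ n : ℤ, z = n := by
  have hb' : (b : ℂ) ≠ 0 := by exact_mod_cast hb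
  have : z = algebraMap ℚ ℂ (a / b) := by simp [← e, hb']
  rw [this, isIntegral_algebraMap_iff (algebraMap ℚ ℂ).injective] at h
  obtain ⟨y, hy⟩ := IsIntegrallyClosed.isIntegral_iff.1 h
  exact ⟨y, by rw [this, ← hy]; simp⟩

theorem sum_count [Fintype H] (w : FreeGroup (Fin r)) (f : H → ℂ) :
    ∑ g, (Nat.card {x : Fin r → H // FreeGroup.lift x w = g} : ℂ) * f g =
      ∑ x : Fin r → H, f (FreeGroup.lift x w) := by
  classical
  rw [← Finset.sum_fiberwise univ fun x : Fin r → H => FreeGroup.lift x w]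
  refine Finset.sum_congr rfl fun g _ => ?_
  rw [Finset.sum_congr rfl fun x hx => by rw [(mem_filter.1 hx).2], sum_const, nsmul_eq_mul,
    Nat.card_eq_fintype_card, Fintype.card_subtype]

end Pool.Agent.Lib.helper12.AV
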