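import Mathlib

namespace Pool.Agent.Lib.helper12.Ladder

open Module

variable {K V : Type} [Field K] [AddCommGroup V] [Module K V] [FiniteDimensional K V]

theorem not_all (Y : Module.End K V) (μ : ℕ → K) (hμ : Function.Injective μ) (v : ℕ → V)
    (hY : ∀ k, Y (v k) = μ k • v k) : ∃ k, v k = 0 := by
  by_contra h
  push Not at h
  exact Module.Finite.not_linearIndependent_of_infinite v
    (Module.End.eigenvectors_linearIndependent' Y μ hμ v fun k =>
      ⟨Module.End.mem_eigenspace_iff.2 (hY k), h k⟩)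

theorem ladder (n : ℕ) (hn : finrank K V = n + 1) (Y A B : Module.End K V) (μ : ℕ → K)
    (hμ : Function.Injective μ) (v : ℕ → V) (h0 : v 0 ≠ 0) (hY : ∀ k, Y (v k) = μ k • v k)
    (θ α t β : ℕ → K) (hA : ∀ k, A (v k) = θ k • v k + α k • v (k + 1))
    (hB0 : B (v 0) = t 0 • v 0) (hB : ∀ k, B (v (k + 1)) = t (k + 1) • v (k + 1) + β k • v k)
    (irr : ∀ W : Submodule K V, W.map A ≤ W → W.map B ≤ W → W = ⊥ ∨ W = ⊤) :
    v (n + 1) = 0 ∧ v n ≠ 0 ∧ ∃ b : Basis (Fin (n + 1)) K V, ∀ k, b k = v k := by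
  classical
  have ex := not_all Y μ hμ v hY
  obtain ⟨m, hm⟩ : ∃ m, Nat.find ex = m + 1 :=
    Nat.exists_eq_succ_of_ne_zero fun e => h0 (by rw [← e]; exact Nat.find_spec ex)
  have z : v (m + 1) = 0 := by rw [← hm]; exact Nat.find_spec ex
  have nz : ∀ k, k < m + 1 → v k ≠ 0 := fun k hk => Nat.find_min ex (by rw [hm]; exact hk)
  have li : LinearIndependent K fun k : Fin (m + 1) => v k :=
    Module.End.eigenvectors_linearIndependent' Y (fun k : Fin (m + 1) => μ k)
      (fun a b e => Fin.ext (hμ e)) _ fun k =>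
      ⟨Module.End.mem_eigenspace_iff.2 (hY k), nz k k.2⟩
  have mem : ∀ k, k ≤ m + 1 → v k ∈ Submodule.span K (Set.range fun k : Fin (m + 1) => v k) :=
    fun k hk => by
      rcases hk.lt_or_eq with h | h
      · exact Submodule.subset_span ⟨⟨k, h⟩, rfl⟩
      · rw [h, z]; exact Submodule.zero_mem _
  have top : Submodule.span K (Set.range fun k : Fin (m + 1) => v k) = ⊤ := by
    refine (irr _ ?_ ?_).resolve_left fun e => h0 ?_
    · rw [Submodule.map_span_le]
      rintro _ ⟨k, rfl⟩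
      rw [hA]
      exact add_mem (Submodule.smul_mem _ _ (mem _ k.2.le)) (Submodule.smul_mem _ _ (mem _ k.2))
    · rw [Submodule.map_span_le]
      rintro _ ⟨⟨k, hk⟩, rfl⟩
      cases k with
      | zero =>
        show B (v 0) ∈ _
        rw [hB0]; exact Submodule.smul_mem _ _ (mem _ (by omega))
      | succ k =>
        show B (v (k + 1)) ∈ _
        rw [hB]
        exact add_mem (Submodule.smul_mem _ _ (mem _ hk.le))
          (Submodule.smul_mem _ _ (mem _ (by omega)))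
    · have := mem 0 (by omega)
      rw [e] at this
      simpa using this
  have e : m = n := by
    have := Module.finrank_eq_card_basis (Basis.mk li top.ge)
    rw [hn] at this
    simp at this
    omega
  subst e
  exact ⟨z, nz m (by omega), Basis.mk li top.ge, fun k => by simp⟩

theorem four (A B : Module.End K V) (v : ℕ → V) (b : Basis (Fin 4) K V) (hb : ∀ k, b k = v k)
    (h4 : v 4 = 0) (θ α t β : ℕ → K) (hA : ∀ k, A (v k) = θ k • v k + α k • v (k + 1))
    (hB0 : B (v 0) = t 0 • v 0) (hB : ∀ k, B (v (k + 1)) = t (k + 1) • v (k + 1) + β k • v k) :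
    LinearMap.toMatrixAlgEquiv b A =
      !![θ 0, 0, 0, 0; α 0, θ 1, 0, 0; 0, α 1, θ 2, 0; 0, 0, α 2, θ 3] ∧
    LinearMap.toMatrixAlgEquiv b B =
      !![t 0, β 0, 0, 0; 0, t 1, β 1, 0; 0, 0, t 2, β 2; 0, 0, 0, t 3] := by
  have e0 : v 0 = b 0 := (hb 0).symm
  have e1 : v 1 = b 1 := (hb 1).symm
  have e2 : v 2 = b 2 := (hb 2).symm
  have e3 : v 3 = b 3 := (hb 3).symm
  have a0 := hA 0
  have a1 := hA 1
  have a2 := hA 2
  have a3 := hA 3
  have b0 := hB 0
  have b1 := hB 1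
  have b2 := hB 2
  simp only [zero_add, Nat.reduceAdd, e0, e1, e2, e3, h4, smul_zero, add_zero]
    at a0 a1 a2 a3 b0 b1 b2 hB0
  constructor
  · ext i j
    fin_cases j <;> fin_cases i <;>
      simp [LinearMap.toMatrixAlgEquiv_apply, a0, a1, a2, a3]
  · ext i j
    fin_cases j <;> fin_cases i <;>
      simp [LinearMap.toMatrixAlgEquiv_apply, b0, b1, b2, hB0]

theorem tr {n : ℕ} (b : Basis (Fin n) K V) (T : Module.End K V) :
    (LinearMap.toMatrixAlgEquiv b T).trace = LinearMap.trace K V T :=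
  (LinearMap.trace_eq_matrix_trace K b T).symm

/-- the scalar data read off from the bidiagonal form -/
theorem data (A B : Module.End K V) (v : ℕ → V) (b : Basis (Fin 4) K V) (hb : ∀ k, b k = v k)
    (h4 : v 4 = 0) (θ α t β : ℕ → K) (hA : ∀ k, A (v k) = θ k • v k + α k • v (k + 1))
    (hB0 : B (v 0) = t 0 • v 0) (hB : ∀ k, B (v (k + 1)) = t (k + 1) • v (k + 1) + β k • v k)
    (l : Fin 4 → K)
    (hl : (A - l 0 • 1) * (A - l 1 • 1) * (A - l 2 • 1) * (A - l 3 • 1) = 0)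
    (hl' : (B - l 0 • 1) * (B - l 1 • 1) * (B - l 2 • 1) * (B - l 3 • 1) = 0) :
    (∀ k < 4, (θ k - l 0) * (θ k - l 1) * (θ k - l 2) * (θ k - l 3) = 0) ∧
    (∀ k < 4, (t k - l 0) * (t k - l 1) * (t k - l 2) * (t k - l 3) = 0) ∧
    LinearMap.trace K V A = θ 0 + θ 1 + θ 2 + θ 3 ∧
    LinearMap.trace K V B = t 0 + t 1 + t 2 + t 3 ∧
    LinearMap.trace K V (A * B) = θ 0 * t 0 + θ 1 * t 1 + θ 2 * t 2 + θ 3 * t 3 +
      α 0 * β 0 + α 1 * β 1 + α 2 * β 2 ∧
    LinearMap.trace K V (A * A * B) = θ 0 ^ 2 * t 0 + θ 1 ^ 2 * t 1 + θ 2 ^ 2 * t 2 +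
      θ 3 ^ 2 * t 3 + α 0 * β 0 * (θ 0 + θ 1) + α 1 * β 1 * (θ 1 + θ 2) +
      α 2 * β 2 * (θ 2 + θ 3) := by
  obtain ⟨ea, eb⟩ := four A B v b hb h4 θ α t β hA hB0 hB
  have p := congrArg (LinearMap.toMatrixAlgEquiv b) hl
  have p' := congrArg (LinearMap.toMatrixAlgEquiv b) hl'
  simp only [map_mul, map_sub, map_smul, map_one, map_zero, ea, eb] at p p'
  refine ⟨fun k hk => ?_, fun k hk => ?_, ?_, ?_, ?_, ?_⟩
  · have := congrFun (congrFun p ⟨k, hk⟩) ⟨k, hk⟩
    interval_cases k <;>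
      simpa [Matrix.mul_apply, Fin.sum_univ_four, Matrix.one_apply] using this
  · have := congrFun (congrFun p' ⟨k, hk⟩) ⟨k, hk⟩
    interval_cases k <;>
      simpa [Matrix.mul_apply, Fin.sum_univ_four, Matrix.one_apply] using this
  · rw [← tr b, ea]; simp [Matrix.trace, Fin.sum_univ_four]
  · rw [← tr b, eb]; simp [Matrix.trace, Fin.sum_univ_four]
  · rw [← tr b, map_mul, ea, eb]; simp [Matrix.trace, Fin.sum_univ_four]; ring
  · rw [← tr b, map_mul, map_mul, ea, eb]; simp [Matrix.trace, Fin.sum_univ_four]; ring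

end Pool.Agent.Lib.helper12.Ladder
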