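import Mathlib

namespace Pool.Agent.Lib.helper12.RChain

open MeasureTheory ProbabilityTheory Set unitInterval
open scoped ENNReal

variable {S E : Type} [Countable S] [MeasurableSpace S] [DiscreteMeasurableSpace S]
  [MeasurableSpace E]

lemma meas_past (F : ℕ → S → E → S) (hF : ∀ n s, Measurable (F n s)) (X : ℕ → (ℕ → E) → S)
    (s0 : S) (h0 : ∀ ω, X 0 ω = s0) (hX : ∀ n ω, X (n + 1) ω = F n (X n ω) (ω n)) (n : ℕ) :
    Measurable[⨆ i ∈ Iio n, MeasurableSpace.comap (fun ω : ℕ → E => ω i) inferInstance] (X n) := by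
  induction n with
  | zero =>
    have : X 0 = fun _ => s0 := funext h0
    rw [this]
    exact measurable_const
  | succ n ih =>
    have e : X (n + 1) = (fun q : S × E => F n q.1 q.2) ∘ fun ω => (X n ω, ω n) := funext (hX n)
    rw [e]
    have m1 : Measurable fun q : S × E => F n q.1 q.2 :=
      measurable_from_prod_countable_right (hF n)
    refine m1.comp (Measurable.prodMk (ih.mono ?_ le_rfl) ?_)
    · exact biSup_mono fun i hi => lt_trans hi (Nat.lt_succ_self n)
    · exact (comap_measurable (fun ω : ℕ → E => ω n)).mono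
        (le_biSup (fun i => MeasurableSpace.comap (fun ω : ℕ → E => ω i) inferInstance)
          (show n ∈ Iio (n + 1) from Nat.lt_succ_self n)) le_rfl

lemma meas (F : ℕ → S → E → S) (hF : ∀ n s, Measurable (F n s)) (X : ℕ → (ℕ → E) → S)
    (s0 : S) (h0 : ∀ ω, X 0 ω = s0) (hX : ∀ n ω, X (n + 1) ω = F n (X n ω) (ω n)) (n : ℕ) :
    Measurable (X n) :=
  (meas_past F hF X s0 h0 hX n).mono
    (iSup₂_le fun i _ => (measurable_pi_apply i).comap_le) le_rfl

lemma step (ν : Measure E) [IsProbabilityMeasure ν] (F : ℕ → S → E → S)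
    (hF : ∀ n s, Measurable (F n s)) (X : ℕ → (ℕ → E) → S)
    (s0 : S) (h0 : ∀ ω, X 0 ω = s0) (hX : ∀ n ω, X (n + 1) ω = F n (X n ω) (ω n)) (n : ℕ)
    (g : S → E → ℝ≥0∞) (hg : ∀ s, Measurable (g s)) :
    ∫⁻ ω, g (X n ω) (ω n) ∂(Measure.infinitePi fun _ => ν) =
      ∫⁻ ω, ∫⁻ u, g (X n ω) u ∂ν ∂(Measure.infinitePi fun _ => ν) := by
  have hi : iIndepFun (fun i (ω : ℕ → E) => ω i) (Measure.infinitePi fun _ => ν) :=
    iIndepFun_infinitePi (X := fun _ x => x) fun _ => measurable_id
  have hd : Disjoint (Iio n) {n} := by simp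
  have h1 := indep_iSup_of_disjoint (fun i => (measurable_pi_apply i).comap_le) hi.iIndep hd
  have h2 : IndepFun (X n) (fun ω : ℕ → E => ω n) (Measure.infinitePi fun _ => ν) := by
    rw [IndepFun_iff_Indep]
    refine indep_of_indep_of_le_right (indep_of_indep_of_le_left h1
      (meas_past F hF X s0 h0 hX n).comap_le) ?_
    exact le_biSup (fun i => MeasurableSpace.comap (fun ω : ℕ → E => ω i) inferInstance)
      (mem_singleton n)
  have mX := meas F hF X s0 h0 hX n
  have mg : Measurable fun q : S × E => g q.1 q.2 := measurable_from_prod_countable_right hg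
  have h3 := h2.map_prod_eq_prod_map_map mX.aemeasurable (measurable_pi_apply n).aemeasurable
  rw [Measure.infinitePi_map_eval] at h3
  have h4 := lintegral_map (μ := Measure.infinitePi fun _ : ℕ => ν) mg
    (mX.prodMk (measurable_pi_apply n))
  rw [← h4, h3, lintegral_prod _ mg.aemeasurable,
    lintegral_map (measurable_of_countable _) mX]

lemma super (ν : Measure E) [IsProbabilityMeasure ν] (F : ℕ → S → E → S)
    (hF : ∀ n s, Measurable (F n s)) (X : ℕ → (ℕ → E) → S)
    (s0 : S) (h0 : ∀ ω, X 0 ω = s0) (hX : ∀ n ω, X (n + 1) ω = F n (X n ω) (ω n))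
    (h : ℕ → S → ℝ≥0∞) (hh : ∀ n s, ∫⁻ u, h (n + 1) (F n s u) ∂ν ≤ h n s) (n : ℕ) :
    ∫⁻ ω, h n (X n ω) ∂(Measure.infinitePi fun _ => ν) ≤ h 0 s0 := by
  induction n with
  | zero => simp [h0]
  | succ n ih =>
    simp only [hX]
    rw [step ν F hF X s0 h0 hX n (fun s u => h (n + 1) (F n s u))
      fun s => (measurable_of_countable _).comp (hF n s)]
    exact (lintegral_mono fun ω => hh n _).trans ih

lemma eventually_le (ν : Measure E) [IsProbabilityMeasure ν] (F : ℕ → S → E → S)
    (hF : ∀ n s, Measurable (F n s)) (X : ℕ → (ℕ → E) → S)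
    (s0 : S) (h0 : ∀ ω, X 0 ω = s0) (hX : ∀ n ω, X (n + 1) ω = F n (X n ω) (ω n))
    (h : ℕ → S → ℝ≥0∞) (hh : ∀ n s, ∫⁻ u, h (n + 1) (F n s u) ∂ν ≤ h n s) :
    Measure.infinitePi (fun _ => ν) {ω | ∀ᶠ n in Filter.atTop, 1 ≤ h n (X n ω)} ≤ h 0 s0 := by
  have e : {ω | ∀ᶠ n in Filter.atTop, 1 ≤ h n (X n ω)} = ⋃ N, {ω | ∀ n ≥ N, 1 ≤ h n (X n ω)} := by
    ext ω
    simp [Filter.eventually_atTop]
  have mo : Monotone fun N => {ω | ∀ n ≥ N, 1 ≤ h n (X n ω)} :=
    fun a b hab ω hω n hn => hω n (le_trans hab hn)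
  rw [e, mo.measure_iUnion]
  refine iSup_le fun N => le_trans (measure_mono fun ω hω => hω N le_rfl) ?_
  refine le_trans ?_ (super ν F hF X s0 h0 hX h hh N)
  have := mul_meas_ge_le_lintegral (μ := Measure.infinitePi fun _ : ℕ => ν)
    ((measurable_of_countable (h N)).comp (meas F hF X s0 h0 hX N)) 1
  rwa [one_mul] at this

lemma coin (p : ℝ) (hp0 : 0 ≤ p) (hp1 : p ≤ 1) (g : Bool → ℝ) (hg : ∀ b, 0 ≤ g b) :
    ∫⁻ u : I, ENNReal.ofReal (g (decide ((u : ℝ) < p))) =
      ENNReal.ofReal (p * g true + (1 - p) * g false) := by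
  let x : I := ⟨p, hp0, hp1⟩
  have e : (fun u : I => ENNReal.ofReal (g (decide ((u : ℝ) < p)))) = fun u =>
      (Iio x).indicator (fun _ => ENNReal.ofReal (g true)) u +
        (Ici x).indicator (fun _ => ENNReal.ofReal (g false)) u := by
    funext u
    by_cases hu : (u : ℝ) < p
    · rw [indicator_of_mem (show u ∈ Iio x from hu),
        indicator_of_notMem (show u ∉ Ici x from not_le.2 hu)]
      simp [hu]
    · rw [indicator_of_notMem (show u ∉ Iio x from hu),
        indicator_of_mem (show u ∈ Ici x from not_lt.1 hu)]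
      simp [hu]
  rw [e, lintegral_add_left (measurable_const.indicator measurableSet_Iio),
    lintegral_indicator_const measurableSet_Iio, lintegral_indicator_const measurableSet_Ici,
    unitInterval.volume_Iio, unitInterval.volume_Ici, ← ENNReal.ofReal_mul (hg _),
    ← ENNReal.ofReal_mul (hg _), ← ENNReal.ofReal_add (mul_nonneg (hg _) hp0)
      (mul_nonneg (hg _) (sub_nonneg.2 hp1))]
  congr 1
  show g true * p + g false * (1 - p) = _
  ring

lemma meas_coin (p : ℝ) : Measurable fun u : I => decide ((u : ℝ) < p) := by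
  refine measurable_to_bool ?_
  have : (fun u : I => decide ((u : ℝ) < p)) ⁻¹' {true} = Subtype.val ⁻¹' Iio p := by
    ext u; simp
  rw [this]
  exact measurable_subtype_coe measurableSet_Iio

lemma coin2 (p : ℝ) (hp0 : 0 ≤ p) (hp1 : p ≤ 1) (g : Bool → Bool → ℝ) (hg : ∀ a b, 0 ≤ g a b) :
    ∫⁻ u : Fin 2 → I, ENNReal.ofReal (g (decide ((u 0 : ℝ) < p)) (decide ((u 1 : ℝ) < p))) =
      ENNReal.ofReal (p * (p * g true true + (1 - p) * g true false) +
        (1 - p) * (p * g false true + (1 - p) * g false false)) := by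
  have m : Measurable fun q : I × I =>
      ENNReal.ofReal (g (decide ((q.1 : ℝ) < p)) (decide ((q.2 : ℝ) < p))) :=
    (measurable_of_countable fun q : Bool × Bool => ENNReal.ofReal (g q.1 q.2)).comp
      (((meas_coin p).comp measurable_fst).prodMk ((meas_coin p).comp measurable_snd))
  have h := (volume_preserving_finTwoArrow I).lintegral_comp m
  refine Eq.trans h ?_
  rw [Measure.volume_eq_prod, lintegral_prod _ m.aemeasurable]
  refine Eq.trans (lintegral_congr fun x => coin p hp0 hp1 (g (decide ((x : ℝ) < p))) (hg _)) ?_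
  exact coin p hp0 hp1 (fun a => p * g a true + (1 - p) * g a false)
    fun a => add_nonneg (mul_nonneg hp0 (hg _ _)) (mul_nonneg (sub_nonneg.2 hp1) (hg _ _))

end Pool.Agent.Lib.helper12.RChain
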