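import Mathlib

namespace Pool.Agent.Lib.helper12.Real

open Filter

variable {V : Type} [Ring V] [Algebra ℚ V] (R : Subring V)

def loc (p : ℕ) : AddSubgroup V where
  carrier := {v | ∃ m : ℕ, Nat.Coprime m p ∧ m • v ∈ R}
  zero_mem' := ⟨1, by simp, by simp⟩
  add_mem' := by
    rintro a b ⟨m, hm, ha⟩ ⟨n, hn, hb⟩
    refine ⟨m * n, Nat.Coprime.mul_left hm hn, ?_⟩
    rw [smul_add]
    refine add_mem ?_ ?_
    · rw [mul_comm, mul_smul]; exact nsmul_mem ha _
    · rw [mul_smul]; exact nsmul_mem hb _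
  neg_mem' := by
    rintro a ⟨m, hm, ha⟩
    exact ⟨m, hm, by simpa using neg_mem ha⟩

def rat : AddSubgroup V where
  carrier := {v | ∃ m : ℕ, m ≠ 0 ∧ m • v ∈ R}
  zero_mem' := ⟨1, by simp, by simp⟩
  add_mem' := by
    rintro a b ⟨m, hm, ha⟩ ⟨n, hn, hb⟩
    refine ⟨m * n, mul_ne_zero hm hn, ?_⟩
    rw [smul_add]
    refine add_mem ?_ ?_
    · rw [mul_comm, mul_smul]; exact nsmul_mem ha _
    · rw [mul_smul]; exact nsmul_mem hb _
  neg_mem' := by
    rintro a ⟨m, hm, ha⟩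
    exact ⟨m, hm, by simpa using neg_mem ha⟩

variable {R}

omit [Algebra ℚ V] in
lemma rat_mul {v r : V} (hv : v ∈ rat R) (hr : r ∈ R) : v * r ∈ rat R := by
  obtain ⟨m, hm, h⟩ := hv
  exact ⟨m, hm, by rw [← smul_mul_assoc]; exact mul_mem h hr⟩

omit [Algebra ℚ V] in
lemma loc_mul {p : ℕ} {v r : V} (hv : v ∈ loc R p) (hr : r ∈ R) : v * r ∈ loc R p := by
  obtain ⟨m, hm, h⟩ := hv
  exact ⟨m, hm, by rw [← smul_mul_assoc]; exact mul_mem h hr⟩

omit [Algebra ℚ V] in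
lemma ev_loc {v : V} (hv : v ∈ rat R) : ∀ᶠ p : ℕ in atTop, p.Prime → v ∈ loc R p := by
  obtain ⟨m, hm, h⟩ := hv
  filter_upwards [eventually_gt_atTop m] with p hp pp
  exact ⟨m, (Nat.coprime_of_lt_prime hm hp pp).symm, h⟩

/-- no nonzero element is divisible in R by infinitely many primes -/
def Red (R : Subring V) : Prop :=
  ∀ v : V, (∃ᶠ p : ℕ in atTop, p.Prime ∧ ∃ r ∈ R, v = p • r) → v = 0

lemma tf {m : ℕ} (hm : m ≠ 0) {v : V} (h : m • v = 0) : v = 0 := by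
  have : v = (m : ℚ)⁻¹ • (m • v) := by
    rw [← Nat.cast_smul_eq_nsmul ℚ, smul_smul, inv_mul_cancel₀ (by exact_mod_cast hm), one_smul]
  rw [this, h, smul_zero]

lemma cancel {p : ℕ} (hp : p.Prime) (v : V) : p • ((p : ℚ)⁻¹ • v) = v := by
  rw [← Nat.cast_smul_eq_nsmul ℚ, smul_smul, mul_inv_cancel₀ (by exact_mod_cast hp.ne_zero),
    one_smul]

lemma red (hR : Red R) {w : V} (hw : w ∈ rat R)
    (h : ∃ᶠ p : ℕ in atTop, p.Prime ∧ (p : ℚ)⁻¹ • w ∈ loc R p) : w = 0 := by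
  obtain ⟨m, hm, hw⟩ := hw
  refine tf hm (hR _ (h.mono ?_))
  rintro p ⟨pp, m', hc, h'⟩
  refine ⟨pp, (p : ℚ)⁻¹ • (m • w), ?_, (cancel pp _).symm⟩
  obtain ⟨a, b, hab⟩ := Nat.isCoprime_iff_coprime.mpr hc
  have e : (p : ℚ)⁻¹ • (m • w) = a • m • (m' • (p : ℚ)⁻¹ • w) + b • (m • w) := by
    have hp : (p : ℚ) ≠ 0 := by exact_mod_cast pp.ne_zero
    have hab' : (a : ℚ) * m' + b * p = 1 := by exact_mod_cast hab
    simp only [← Nat.cast_smul_eq_nsmul ℚ, ← Int.cast_smul_eq_zsmul ℚ, smul_smul, ← add_smul]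
    congr 1
    field_simp
    linear_combination (-1 : ℚ) * hab'
  rw [e]
  exact add_mem (zsmul_mem (nsmul_mem h' _) _) (zsmul_mem hw _)

lemma poly (hR : Red R) : ∀ (k : ℕ) (z : ℕ → V), (∀ j, z j ∈ rat R) →
    (∃ᶠ p : ℕ in atTop, p.Prime ∧
      ∑ j ∈ Finset.range k, ((p : ℚ)⁻¹) ^ (j + 1) • z j ∈ loc R p) → ∀ j < k, z j = 0 := by
  intro k
  induction k with
  | zero => intro z _ _ j hj; omega
  | succ k ih =>
    intro z hz h
    have e : ∀ p : ℕ, ∑ j ∈ Finset.range (k + 1), ((p : ℚ)⁻¹) ^ (j + 1) • z j =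
        (p : ℚ)⁻¹ • (∑ j ∈ Finset.range k, ((p : ℚ)⁻¹) ^ (j + 1) • z (j + 1) + z 0) := by
      intro p
      rw [Finset.sum_range_succ', smul_add, Finset.smul_sum]
      simp only [smul_smul, ← pow_succ', zero_add, pow_one]
    simp only [e] at h
    have h1 := ih (fun j => z (j + 1)) (fun j => hz _) ((h.and_eventually (ev_loc (hz 0))).mono (by
      rintro p ⟨⟨pp, h1⟩, h2⟩
      refine ⟨pp, ?_⟩
      have := nsmul_mem h1 p
      rw [cancel pp] at this
      simpa using sub_mem this (h2 pp)))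
    have h2 : z 0 = 0 := red hR (hz 0) (h.mono (by
      rintro p ⟨pp, h2⟩
      refine ⟨pp, ?_⟩
      rwa [Finset.sum_eq_zero (fun j hj => by
        rw [h1 j (Finset.mem_range.mp hj), smul_zero]), zero_add] at h2))
    intro j hj
    rcases j with _ | j
    · exact h2
    · exact h1 j (by omega)

theorem core (D G : ℕ → ℕ → V) (hD : ∀ j p, D j p ∈ R)
    (hG : ∀ j p, p.Prime → D j p * G j p = 1 ∧ G j p * D j p = 1 ∧ ∃ k, p ^ k • G j p ∈ R) :
    ∃ A : AddSubgroup V, (∀ r ∈ R, ∀ v ∈ A, r * v ∈ A) ∧ 1 ∈ A ∧ A ≤ rat R ∧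
      ∀ j, ∃ᶠ p : ℕ in atTop, p.Prime ∧ G j p ∈ A ∧ ∀ v ∈ A, v * D j p ∈ loc R p := by
  let i : ℕ → ℕ := fun p => (Nat.unpair (Nat.count Nat.Prime p)).1
  let A : AddSubgroup V :=
    { carrier := {v | ∀ p, p.Prime → v * D (i p) p ∈ loc R p}
      zero_mem' := fun p _ => by simp
      add_mem' := fun ha hb p pp => by rw [add_mul]; exact add_mem (ha p pp) (hb p pp)
      neg_mem' := fun ha p pp => by rw [neg_mul]; exact neg_mem (ha p pp) }
  refine ⟨A, ?_, ?_, ?_, ?_⟩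
  · intro r hr v hv p pp
    obtain ⟨m, hm, h⟩ := hv p pp
    exact ⟨m, hm, by rw [mul_assoc, ← mul_smul_comm]; exact mul_mem hr h⟩
  · intro p _
    exact ⟨1, by simp, by simpa using hD _ _⟩
  · intro v hv
    obtain ⟨m, hm, h⟩ := hv 2 Nat.prime_two
    obtain ⟨h1, -, k, h2⟩ := hG (i 2) 2 Nat.prime_two
    refine ⟨m * 2 ^ k, mul_ne_zero (by rintro rfl; simp at hm) (by positivity), ?_⟩
    have := mul_mem h h2
    rwa [smul_mul_assoc, mul_smul_comm, mul_assoc, h1, mul_one, smul_smul] at this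
  · intro j
    rw [frequently_atTop]
    intro N
    have hi : i (Nat.nth Nat.Prime (Nat.pair j N)) = j := by
      simp only [i]
      rw [Nat.count_nth_of_infinite Nat.infinite_setOf_prime, Nat.unpair_pair]
    have pp : (Nat.nth Nat.Prime (Nat.pair j N)).Prime :=
      Nat.nth_mem_of_infinite Nat.infinite_setOf_prime _
    refine ⟨Nat.nth Nat.Prime (Nat.pair j N), (Nat.right_le_pair j N).trans
      (Nat.le_nth (fun hf => absurd hf Nat.infinite_setOf_prime)), pp, ?_, ?_⟩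
    · generalize Nat.nth Nat.Prime (Nat.pair j N) = p at *
      obtain ⟨-, h1, k, h2⟩ := hG j p pp
      intro q hq
      by_cases hpq : p = q
      · subst hpq
        rw [hi, h1]
        exact ⟨1, by simp, by simp⟩
      · exact loc_mul ⟨p ^ k, Nat.Coprime.pow_left _ ((Nat.coprime_primes pp hq).2 hpq), h2⟩
          (hD _ _)
    · intro v hv
      have := hv _ pp
      rwa [hi] at this

lemma nil_data {n : V} (hn : n ∈ R) {k : ℕ} (hk : n ^ k = 0) (p : ℕ) (pp : p.Prime) :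
    ((p : V) - n) * (∑ j ∈ Finset.range k, ((p : ℚ)⁻¹) ^ (j + 1) • n ^ j) = 1 ∧
    (∑ j ∈ Finset.range k, ((p : ℚ)⁻¹) ^ (j + 1) • n ^ j) * ((p : V) - n) = 1 ∧
    ∃ l, p ^ l • (∑ j ∈ Finset.range k, ((p : ℚ)⁻¹) ^ (j + 1) • n ^ j) ∈ R := by
  have hp : (p : ℚ) ≠ 0 := by exact_mod_cast pp.ne_zero
  have e1 : (p : V) - n = (p : ℚ) • (1 - (p : ℚ)⁻¹ • n) := by
    rw [smul_sub, smul_smul, mul_inv_cancel₀ hp, one_smul, Nat.cast_smul_eq_nsmul, nsmul_one]
  have e2 : ∑ j ∈ Finset.range k, ((p : ℚ)⁻¹) ^ (j + 1) • n ^ j =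
      (p : ℚ)⁻¹ • ∑ j ∈ Finset.range k, ((p : ℚ)⁻¹ • n) ^ j := by
    rw [Finset.smul_sum]
    simp only [smul_pow, smul_smul, pow_succ']
  have e3 : ((p : ℚ)⁻¹ • n) ^ k = 0 := by rw [smul_pow, hk, smul_zero]
  refine ⟨?_, ?_, k, ?_⟩
  · rw [e1, e2, smul_mul_smul_comm, mul_inv_cancel₀ hp, one_smul, mul_neg_geom_sum, e3, sub_zero]
  · rw [e1, e2, smul_mul_smul_comm, inv_mul_cancel₀ hp, one_smul, geom_sum_mul_neg, e3, sub_zero]
  · rw [Finset.smul_sum]
    refine sum_mem (fun j hj => ?_)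
    obtain ⟨c, rfl⟩ := Nat.exists_eq_add_of_lt (Finset.mem_range.mp hj)
    have : p ^ (j + c + 1) • ((p : ℚ)⁻¹) ^ (j + 1) • n ^ j = p ^ c • n ^ j := by
      simp only [← Nat.cast_smul_eq_nsmul ℚ, smul_smul]
      congr 1
      push_cast
      rw [inv_pow, show j + c + 1 = c + (j + 1) by ring, pow_add, mul_assoc,
        mul_inv_cancel₀ (pow_ne_zero _ hp), mul_one]
    rw [this]
    exact nsmul_mem (pow_mem hn _) _

lemma idem_data {e : V} (he : e ∈ R) (hk : e * e = e) (p : ℕ) (pp : p.Prime) :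
    (e + p • (1 - e)) * (e + (p : ℚ)⁻¹ • (1 - e)) = 1 ∧
    (e + (p : ℚ)⁻¹ • (1 - e)) * (e + p • (1 - e)) = 1 ∧
    ∃ l, p ^ l • (e + (p : ℚ)⁻¹ • (1 - e)) ∈ R := by
  have h1 : e * (1 - e) = 0 := by rw [mul_sub, hk]; simp
  have h2 : (1 - e) * e = 0 := by rw [sub_mul, hk]; simp
  have h3 : (1 - e) * (1 - e) = 1 - e := by rw [mul_sub, h2]; simp
  refine ⟨?_, ?_, 1, ?_⟩
  · simp only [add_mul, mul_add, mul_smul_comm, smul_mul_assoc, h1, h2, h3, hk, smul_zero]
    rw [zero_add, smul_comm, cancel pp]; simp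
  · simp only [add_mul, mul_add, mul_smul_comm, smul_mul_assoc, h1, h2, h3, hk, smul_zero]
    simp [cancel pp]
  · rw [pow_one, smul_add, cancel pp]
    exact add_mem (nsmul_mem he _) (sub_mem (one_mem _) he)

theorem main (n e : ℕ → V) (hn : ∀ j, IsNilpotent (n j)) (he : ∀ j, e j * e j = e j)
    (hRc : R = Subring.closure (Set.range n ∪ Set.range e)) (hR : Red R) :
    ∃ A : AddSubgroup V, (∀ r ∈ R, ∀ v ∈ A, r * v ∈ A) ∧ 1 ∈ A ∧ A ≤ rat R ∧
      ∀ Φ : V →ₗ[ℚ] V, (∀ v ∈ A, Φ v ∈ A) → ∀ v ∈ A, Φ v = Φ 1 * v := by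
  choose k hk using hn
  have hnR : ∀ j, n j ∈ R := fun j => hRc ▸ Subring.subset_closure (Or.inl ⟨j, rfl⟩)
  have heR : ∀ j, e j ∈ R := fun j => hRc ▸ Subring.subset_closure (Or.inr ⟨j, rfl⟩)
  let f : ℕ → V := fun j => if j % 2 = 0 then e (j / 2) else 1 - e (j / 2)
  have hf : ∀ j, f j * f j = f j := by
    intro j
    simp only [f]
    split_ifs
    · exact he _
    · simp [mul_sub, sub_mul, he]
  have hfR : ∀ j, f j ∈ R := by
    intro j
    simp only [f]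
    split_ifs
    · exact heR _
    · exact sub_mem (one_mem _) (heR _)
  obtain ⟨A, hA, h1, hrat, hfr⟩ := core (R := R)
    (fun j p => if j % 2 = 0 then (p : V) - n (j / 2) else f (j / 2) + p • (1 - f (j / 2)))
    (fun j p => if j % 2 = 0 then
      ∑ i ∈ Finset.range (k (j / 2)), ((p : ℚ)⁻¹) ^ (i + 1) • n (j / 2) ^ i
      else f (j / 2) + (p : ℚ)⁻¹ • (1 - f (j / 2)))
    (fun j p => by
      split_ifs
      · exact sub_mem (natCast_mem _ _) (hnR _)
      · exact add_mem (hfR _) (nsmul_mem (sub_mem (one_mem _) (hfR _)) _))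
    (fun j p pp => by
      split_ifs
      · exact nil_data (hnR _) (hk _) p pp
      · exact idem_data (hfR _) (hf _) p pp)
  refine ⟨A, hA, h1, hrat, fun Φ hΦ => ?_⟩
  have hr : ∀ r ∈ R, Φ r ∈ rat R := fun r hr => hrat (hΦ _ (by simpa using hA r hr 1 h1))
  have Hn : ∀ j, ∀ r ∈ R, Φ (r * n j) = Φ r * n j := by
    intro j r hrR
    have h := hfr (2 * j)
    simp only [Nat.mul_mod_right, if_true, Nat.mul_div_cancel_left j two_pos] at h
    rcases Nat.eq_zero_or_pos (k j) with h0 | h0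
    · have : (1 : V) = 0 := by simpa [h0] using hk j
      rw [← mul_one (Φ _), ← mul_one (Φ r * _), this, mul_zero, mul_zero]
    have := poly hR (k j) (fun i => Φ (r * n j ^ (i + 1)) - Φ (r * n j ^ i) * n j)
      (fun i => sub_mem (hr _ (mul_mem hrR (pow_mem (hnR _) _)))
        (rat_mul (hr _ (mul_mem hrR (pow_mem (hnR _) _))) (hnR _)))
      ((h.and_eventually (ev_loc (hr r hrR))).mono (by
        rintro p ⟨⟨pp, hG, hD⟩, h2⟩
        refine ⟨pp, ?_⟩
        have h3 := sub_mem (hD _ (hΦ _ (hA r hrR _ hG))) (h2 pp)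
        have hp : (p : ℚ) ≠ 0 := by exact_mod_cast pp.ne_zero
        convert h3 using 1
        rw [Finset.mul_sum, map_sum, Finset.sum_mul]
        have e1 : ∀ i, Φ (r * ((p : ℚ)⁻¹) ^ (i + 1) • n j ^ i) * ((p : V) - n j) =
            (((p : ℚ)⁻¹) ^ i • Φ (r * n j ^ i) - ((p : ℚ)⁻¹) ^ (i + 1) • Φ (r * n j ^ (i + 1))) +
            ((p : ℚ)⁻¹) ^ (i + 1) • (Φ (r * n j ^ (i + 1)) - Φ (r * n j ^ i) * n j) := by
          intro i
          rw [mul_smul_comm, map_smul, smul_mul_assoc, mul_sub, ← nsmul_eq_mul',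
            ← Nat.cast_smul_eq_nsmul ℚ, smul_sub, smul_sub, smul_smul, pow_succ, mul_assoc,
            inv_mul_cancel₀ hp, mul_one]
          abel
        simp only [e1]
        rw [Finset.sum_add_distrib, Finset.sum_range_sub']
        simp [hk])) 0 h0
    simpa [sub_eq_zero] using this
  have Hf : ∀ j, ∀ r ∈ R, Φ (r * (1 - f j)) * f j = 0 := by
    intro j r hrR
    have h := hfr (2 * j + 1)
    have a1 : (2 * j + 1) % 2 ≠ 0 := by omega
    have a2 : (2 * j + 1) / 2 = j := by omega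
    simp only [if_neg a1, a2] at h
    have b1 := hr _ (mul_mem hrR (hfR j))
    have b2 := hr _ (mul_mem hrR (sub_mem (one_mem _) (hfR j)))
    refine red hR (rat_mul b2 (hfR j))
      (((h.and_eventually (ev_loc b1)).and_eventually (ev_loc b2)).mono ?_)
    rintro p ⟨⟨⟨pp, hG, hD⟩, h2⟩, h3⟩
    refine ⟨pp, ?_⟩
    have h4 := sub_mem (sub_mem (hD _ (hΦ _ (hA r hrR _ hG)))
      (loc_mul (h2 pp) (add_mem (hfR j) (nsmul_mem (sub_mem (one_mem _) (hfR j)) p))))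
      (loc_mul (h3 pp) (sub_mem (one_mem _) (hfR j)))
    convert h4 using 1
    rw [mul_add r, mul_smul_comm, map_add, map_smul, add_mul, add_sub_cancel_left,
      smul_mul_assoc, mul_add, mul_smul_comm, smul_add, smul_comm _ p, cancel pp]
    simp
  have He : ∀ j, ∀ r ∈ R, Φ (r * e j) = Φ r * e j := by
    intro j r hrR
    have h1 := Hf (2 * j) r hrR
    have h2 := Hf (2 * j + 1) r hrR
    have a1 : (2 * j + 1) % 2 ≠ 0 := by omega
    have a2 : (2 * j + 1) / 2 = j := by omega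
    simp only [f, Nat.mul_mod_right, if_true, Nat.mul_div_cancel_left j two_pos, if_neg a1, a2,
      sub_sub_cancel, mul_sub, mul_one, map_sub, sub_mul, sub_eq_zero] at h1 h2
    rw [h2, h1]
  have H : ∀ s ∈ R, ∀ r ∈ R, Φ (r * s) = Φ r * s := by
    intro s hs
    rw [hRc] at hs
    induction hs using Subring.closure_induction with
    | mem x hx => rcases hx with ⟨j, rfl⟩ | ⟨j, rfl⟩; exacts [Hn j, He j]
    | zero => simp
    | one => simp
    | add x y _ _ hx hy => intro r hr; rw [mul_add, map_add, hx r hr, hy r hr, mul_add]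
    | neg x _ hx => intro r hr; rw [mul_neg, map_neg, hx r hr, mul_neg]
    | mul x y hx' _ hx hy =>
      intro r hr
      rw [← mul_assoc, hy _ (mul_mem hr (hRc ▸ hx')), hx r hr, mul_assoc]
  intro v hv
  obtain ⟨m, hm, h⟩ := hrat hv
  have := H _ h 1 (one_mem _)
  rw [one_mul, map_nsmul, mul_smul_comm, ← sub_eq_zero, ← smul_sub] at this
  exact sub_eq_zero.mp (tf hm this)

theorem realize (n e : ℕ → V) (hn : ∀ j, IsNilpotent (n j)) (he : ∀ j, e j * e j = e j)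
    (hRc : R = Subring.closure (Set.range n ∪ Set.range e)) (hR : Red R) :
    ∃ (A : AddSubgroup V) (ev : AddMonoid.End A →+* V), 1 ∈ A ∧ A ≤ rat R ∧
      Function.Injective ev ∧ (∀ φ, ev φ ∈ A) ∧ (∀ r ∈ R, ∃ φ, ev φ = r) ∧
      ∀ φ (v : A), ((φ v : A) : V) = ev φ * v := by
  obtain ⟨A, hA, h1, hrat, H⟩ := main n e hn he hRc hR
  have key : ∀ (φ : AddMonoid.End A) (v : A), ((φ v : A) : V) = (φ ⟨1, h1⟩ : A) * v := by
    intro φ v
    letI : DivisibleBy V ℤ :=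
      { div := fun a n => (n : ℚ)⁻¹ • a
        div_zero := fun a => by simp
        div_cancel := fun {n} a hn => by
          rw [← Int.cast_smul_eq_zsmul ℚ, smul_smul, mul_inv_cancel₀ (by exact_mod_cast hn),
            one_smul] }
    obtain ⟨Ψ, hΨ⟩ := (Module.Baer.of_divisible V).extension_property_addMonoidHom A.subtype
      A.subtype_injective (A.subtype.comp φ)
    have h2 : ∀ v : A, Ψ v = (φ v : A) := fun v => DFunLike.congr_fun hΨ v
    have := H Ψ.toRatLinearMap (fun v hv => by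
      have := h2 ⟨v, hv⟩
      simp only [AddMonoidHom.coe_toRatLinearMap] at this ⊢
      rw [this]; exact (φ _).2) v v.2
    simp only [AddMonoidHom.coe_toRatLinearMap] at this
    rw [← h2, ← h2, this]
  let ev : AddMonoid.End A →+* V :=
    { toFun := fun φ => (φ ⟨1, h1⟩ : A)
      map_one' := rfl
      map_zero' := rfl
      map_add' := fun _ _ => rfl
      map_mul' := fun φ ψ => key φ _ }
  refine ⟨A, ev, h1, hrat, ?_, fun φ => (φ _).2, ?_, key⟩
  · intro φ ψ h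
    ext v
    rw [key φ, key ψ]
    exact congrArg (· * (v : V)) h
  · intro r hr
    exact ⟨AddMonoidHom.mk' (fun v => ⟨r * v, hA r hr _ v.2⟩) (fun a b => by
      ext; simp [mul_add]), mul_one r⟩

lemma comm_rat {c v : V} (hc : ∀ r ∈ R, c * r = r * c) (hv : v ∈ rat R) : c * v = v * c := by
  obtain ⟨m, hm, h⟩ := hv
  have := hc _ h
  rw [mul_smul_comm, smul_mul_assoc, ← sub_eq_zero, ← smul_sub] at this
  exact sub_eq_zero.mp (tf hm this)

theorem ce_of {E : Type} [Ring E] (ev : E →+* V) (hinj : Function.Injective ev)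
    (h1 : ∀ φ, ev φ ∈ rat R) (h2 : ∀ r ∈ R, ∃ φ, ev φ = r)
    (H : ∀ v ∈ rat R, v ≠ 0 → ∃ c ∈ R, (∀ r ∈ R, c * r = r * c) ∧ v * c ≠ 0 ∧
      ∀ r ∈ R, v * c * r = r * (v * c)) (φ : E) (hφ : φ ≠ 0) :
    ∃ x ∈ Subring.center E, ∃ y ∈ Subring.center E, x ≠ 0 ∧ y ≠ 0 ∧ φ * x = y := by
  obtain ⟨c, hc, a1, a2, a3⟩ := H _ (h1 φ) (fun h => hφ (hinj (by simpa using h)))
  obtain ⟨x, rfl⟩ := h2 c hc
  refine ⟨x, ?_, _, ?_, ?_, ?_, rfl⟩
  · rw [Subring.mem_center_iff]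
    intro g
    apply hinj
    rw [map_mul, map_mul, comm_rat a1 (h1 g)]
  · rw [Subring.mem_center_iff]
    intro g
    apply hinj
    rw [map_mul, map_mul, map_mul, map_mul, comm_rat a3 (h1 g)]
  · rintro rfl; simp at a2
  · intro h; apply a2; rw [← map_mul, h, map_zero]

end Pool.Agent.Lib.helper12.Real
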