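import Mathlib

namespace Pool.Agent.Lib.helper12.Six

/-- the K-algebra with basis 1, x, y, t, p, w and xy = tx = xt = p, ty = yt = w -/
def A (K : Type) := K × K × K × K × K × K

variable {K : Type} [CommRing K]

instance : AddCommGroup (A K) := inferInstanceAs (AddCommGroup (K × K × K × K × K × K))

def mul (a b : K × K × K × K × K × K) : K × K × K × K × K × K :=
  (a.1 * b.1, a.1 * b.2.1 + a.2.1 * b.1, a.1 * b.2.2.1 + a.2.2.1 * b.1,
    a.1 * b.2.2.2.1 + a.2.2.2.1 * b.1,
    a.1 * b.2.2.2.2.1 + a.2.2.2.2.1 * b.1 + a.2.1 * b.2.2.1 + a.2.2.2.1 * b.2.1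
      + a.2.1 * b.2.2.2.1,
    a.1 * b.2.2.2.2.2 + a.2.2.2.2.2 * b.1 + a.2.2.2.1 * b.2.2.1 + a.2.2.1 * b.2.2.2.1)

instance : Ring (A K) :=
  { (inferInstance : AddCommGroup (A K)) with
    mul := mul
    one := ((1, 0, 0, 0, 0, 0) : K × K × K × K × K × K)
    left_distrib := fun (x y z : K × K × K × K × K × K) =>
      show mul x (y + z) = mul x y + mul x z by
        simp only [mul, Prod.fst_add, Prod.snd_add, Prod.mk_add_mk, Prod.mk.injEq]
        refine ⟨?_, ?_, ?_, ?_, ?_, ?_⟩ <;> ring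
    right_distrib := fun (x y z : K × K × K × K × K × K) =>
      show mul (x + y) z = mul x z + mul y z by
        simp only [mul, Prod.fst_add, Prod.snd_add, Prod.mk_add_mk, Prod.mk.injEq]
        refine ⟨?_, ?_, ?_, ?_, ?_, ?_⟩ <;> ring
    mul_assoc := fun (x y z : K × K × K × K × K × K) =>
      show mul (mul x y) z = mul x (mul y z) by
        simp only [mul, Prod.mk.injEq]
        refine ⟨?_, ?_, ?_, ?_, ?_, ?_⟩ <;> ring
    zero_mul := fun (x : K × K × K × K × K × K) => show mul 0 x = 0 by simp [mul]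
    mul_zero := fun (x : K × K × K × K × K × K) => show mul x 0 = 0 by simp [mul]
    one_mul := fun (x : K × K × K × K × K × K) => show mul (1, 0, 0, 0, 0, 0) x = x by simp [mul]
    mul_one := fun (x : K × K × K × K × K × K) => show mul x (1, 0, 0, 0, 0, 0) = x by simp [mul] }

def mk (a b c d e f : K) : A K := (a, b, c, d, e, f)

lemma mk_mul (a b c d e f a' b' c' d' e' f' : K) :
    mk a b c d e f * mk a' b' c' d' e' f' = mk (a * a') (a * b' + b * a') (a * c' + c * a')
      (a * d' + d * a') (a * e' + e * a' + b * c' + d * b' + b * d')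
      (a * f' + f * a' + d * c' + c * d') := rfl

lemma mk_add (a b c d e f a' b' c' d' e' f' : K) :
    mk a b c d e f + mk a' b' c' d' e' f' = mk (a + a') (b + b') (c + c') (d + d') (e + e')
      (f + f') := rfl

lemma zero_eq : (0 : A K) = mk 0 0 0 0 0 0 := rfl
lemma one_eq : (1 : A K) = mk 1 0 0 0 0 0 := rfl

omit [CommRing K] in
lemma mk_inj {a b c d e f a' b' c' d' e' f' : K} :
    mk a b c d e f = mk a' b' c' d' e' f' ↔
      a = a' ∧ b = b' ∧ c = c' ∧ d = d' ∧ e = e' ∧ f = f' := by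
  simp only [mk]
  exact ⟨fun h => by simpa [A] using h, fun h => by simp [h]⟩

omit [CommRing K] in
lemma ind {P : A K → Prop} (h : ∀ a b c d e f, P (mk a b c d e f)) (x : A K) : P x :=
  h x.1 x.2.1 x.2.2.1 x.2.2.2.1 x.2.2.2.2.1 x.2.2.2.2.2

lemma cen (a d e f : K) : mk a 0 0 d e f ∈ Subring.center (A K) := by
  rw [Subring.mem_center_iff]
  intro g
  induction g using ind
  simp only [mk_mul, mk_inj]
  refine ⟨?_, ?_, ?_, ?_, ?_, ?_⟩ <;> ring

theorem ce [Nontrivial K] (r : A K) (hr : r ≠ 0) :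
    ∃ x ∈ Subring.center (A K), ∃ y ∈ Subring.center (A K), x ≠ 0 ∧ y ≠ 0 ∧ r * x = y := by
  induction r using ind with
  | h a b c d e f =>
  by_cases ha : a = 0
  · by_cases hb : b = 0 ∧ c = 0
    · obtain ⟨rfl, rfl⟩ := hb
      exact ⟨1, one_mem _, _, cen _ _ _ _, by simp [one_eq, zero_eq, mk_inj], hr, mul_one _⟩
    · refine ⟨mk 0 0 0 1 0 0, cen _ _ _ _, mk 0 0 0 0 b c, cen _ _ _ _,
        by simp [zero_eq, mk_inj], by simpa [zero_eq, mk_inj] using hb, by simp [mk_mul, ha]⟩
  · exact ⟨mk 0 0 0 0 0 1, cen _ _ _ _, mk 0 0 0 0 0 a, cen _ _ _ _,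
        by simp [zero_eq, mk_inj], by simpa [zero_eq, mk_inj] using ha, by simp [mk_mul]⟩

section
variable {F : Type} [CommRing F] [Algebra F K]

instance : Module F (A K) := inferInstanceAs (Module F (K × K × K × K × K × K))

lemma smul_mk (s : F) (a b c d e f : K) :
    s • mk a b c d e f = mk (s • a) (s • b) (s • c) (s • d) (s • e) (s • f) := rfl

instance : Algebra F (A K) := Algebra.ofModule
  (fun s x y => by
    induction x using ind; induction y using ind
    simp only [smul_mk, mk_mul, mk_inj, Algebra.smul_def]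
    refine ⟨?_, ?_, ?_, ?_, ?_, ?_⟩ <;> ring)
  (fun s x y => by
    induction x using ind; induction y using ind
    simp only [smul_mk, mk_mul, mk_inj, Algebra.smul_def]
    refine ⟨?_, ?_, ?_, ?_, ?_, ?_⟩ <;> ring)

instance [Module.Finite F K] : Module.Finite F (A K) :=
  inferInstanceAs (Module.Finite F (K × K × K × K × K × K))
end

end Pool.Agent.Lib.helper12.Six
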